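import Pool.Agent.Y773.AB.CoreW

/-!
# The zeros of a thin family, from the mean square hypothesis, any degree

Adapted from `Pool.Agent.Y773.AB.CoreW`, where the degree is two.
-/

set_option autoImplicit false

open Complex Filter Topology Set MeasureTheory
open H370 (zset mult NN Nd Ns)
open H385 (Rw bt)

namespace Pool.Agent.Helper503_HW

open Pool.Agent.Y773.AB (avg_bound)
open Pool.Agent.Y773.AB

theorem toDd {d A Q : ℝ} {F : ℂ → ℂ} {a : ℕ → ℂ} (h : W388.LV.GoodG d A Q F a)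
    (ha : ∀ n, ‖a n‖ ≤ d * ArithmeticFunction.vonMangoldt n) : H385.GoodD d A Q F a where
  an := h.an
  growth := h.growth
  lower := h.lower
  nzr := h.nzr
  nzl := h.nzl
  symm := h.symm
  ha := ha
  ld := h.ld
  left s h1 h2 h3 h4 := h.left s (by linarith) h2 h3 h4

lemma n15d {c A S B d : ℝ} (hc : 0 < c) :
    c⁻¹ * (A * (d * S) - c * B) = A * (d * (c⁻¹ * S)) - B := by
  field_simp

/-- the zeros, from the mean square hypothesis, thin families -/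
theorem coreD (d A : ℝ) (hd : 1 ≤ d) (hA : 1 ≤ A) (J : Type) (ι : J → Type)
    (s : (j : J) → Finset (ι j)) (X : J → ℝ) (Q : (j : J) → ι j → ℝ)
    (F : (j : J) → ι j → ℂ → ℂ) (a : (j : J) → ι j → ℕ → ℂ)
    (hne : ∀ j, (s j).Nonempty)
    (hgood : ∀ j, ∀ i ∈ s j, 1 ≤ Q j i ∧ Q j i ≤ X j ∧ W388.LV.GoodG d A (Q j i) (F j i) (a j i) ∧
      ∀ n, ‖a j i n‖ ≤ d * ArithmeticFunction.vonMangoldt n)
    (y : ℝ) (hy : 0 < y)
    (hbad : ∀ ρ : ℝ, 0 < ρ → ∃ X0 : ℝ, ∀ j, X0 ≤ X j → (open Classical in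
      (((s j).filter (fun i => Real.log (Q j i) < y * Real.log (X j))).card : ℝ)) ≤
        ρ * (s j).card)
    (γ β c' : ℝ) (h0 : 0 < γ) (hπ : γ < Real.pi) (hβ : 0 < β) (hc' : 0 ≤ c') (hR0 : 0 ≤ Rw γ 0)
    (hcy : c' * β ≤ d ^ 2 * Rw γ 0 * y)
    (H : W388.LV.HYL s (fun j _ => ((s j).card : ℝ)⁻¹) X a γ β c') (ε : ℝ) (hε : 0 < ε) :
    ∃ η X0 : ℝ, 0 < η ∧ 1 ≤ X0 ∧
    ∀ (j : J) (T : ℝ), X0 ≤ X j → (Real.log (X j)) ^ 2 ≤ T → T ≤ (X j) ^ η →
      ∑ i ∈ s j, (2 * (NN (F j i) T (2 * T) : ℝ) - (Ns (F j i) T (2 * T) : ℝ)) ≤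
        (d * Rw γ 0 / β + c' / d + ε) * ∑ i ∈ s j, (NN (F j i) T (2 * T) : ℝ) ∧
      ∑ i ∈ s j, (3 * (NN (F j i) T (2 * T) : ℝ) - 2 * (Nd (F j i) T (2 * T) : ℝ)) ≤
        (d * Rw γ 0 / β + c' / d + ε) * ∑ i ∈ s j, (NN (F j i) T (2 * T) : ℝ) := by
  classical
  have hd0 : 0 < d := by linarith
  obtain ⟨C1, hC1, hfam⟩ := Pool.Agent.Y693.AB.fam_abstract_V γ h0 hπ d A hd hA
  obtain ⟨C1', hC1', hfam'⟩ := Pool.Agent.Y693.AB.fam_abstract_d_V γ h0 hπ d A hd hA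
  obtain ⟨C3, hC3, hlow⟩ := W388.LV.N_lower_D d A hd hA
  obtain ⟨CC, hCC⟩ : ∃ CC : ℝ, CC = 2 * max C1 C1' := ⟨_, rfl⟩
  have hCC0 : 0 < CC := by
    have := lt_of_lt_of_le hC1 (le_max_left C1 C1')
    rw [hCC]; positivity
  obtain ⟨R4, hR4⟩ : ∃ R4 : ℝ, R4 = d ^ 2 * Rw γ 0 := ⟨_, rfl⟩
  have hR40 : 0 ≤ R4 := by rw [hR4]; positivity
  have hK0 : 0 ≤ d * Rw γ 0 / β + c' / d := by positivity
  obtain ⟨ε1, L1, hε1, hL1, hnum⟩ := Pool.Agent.Y693.AB.v_num (d * Rw γ 0 / β + c' / d) (y / 2) β CC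
    (5 * C3) ε hK0 (by positivity) hβ hε hCC0 (by positivity)
  obtain ⟨ρ, hρd⟩ : ∃ ρ : ℝ, ρ = min (1 / 2) (ε1 / 4 / (R4 / β + c' + 1)) := ⟨_, rfl⟩
  have hKc : 0 ≤ R4 / β + c' := by positivity
  have hρ : 0 < ρ := by rw [hρd]; positivity
  have hρ2 : ρ ≤ 1 / 2 := by rw [hρd]; exact min_le_left _ _
  have hρ3 : (R4 / β + c') * ρ ≤ ε1 / 4 := by
    have h1 : ρ ≤ ε1 / 4 / (R4 / β + c' + 1) := by rw [hρd]; exact min_le_right _ _
    rw [le_div_iff₀ (by positivity)] at h1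
    exact NW.n1 h1 hρ.le
  obtain ⟨Xb, hXb⟩ := hbad ρ hρ
  obtain ⟨η0, X0, hη0, hX0, hmain⟩ := H (ε1 / 2) (by positivity)
  obtain ⟨η, hη, hη1, hηη0, hη2⟩ : ∃ η : ℝ, 0 < η ∧ η ≤ 1 ∧ η ≤ η0 ∧
      η * (R4 / β) ≤ ε1 / 4 := by
    refine ⟨min (min 1 η0) (ε1 / 4 / (R4 / β + 1)), ?_, ?_, ?_, ?_⟩
    · exact lt_min (lt_min one_pos hη0) (by positivity)
    · exact (min_le_left _ _).trans (min_le_left _ _)
    · exact (min_le_left _ _).trans (min_le_right _ _)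
    · have h1 : min (min 1 η0) (ε1 / 4 / (R4 / β + 1)) ≤ ε1 / 4 / (R4 / β + 1) :=
        min_le_right _ _
      rw [le_div_iff₀ (by positivity)] at h1
      have h2 : 0 ≤ min (min 1 η0) (ε1 / 4 / (R4 / β + 1)) := by positivity
      exact NW.n2 h1 h2
  set L0 : ℝ := 8 + 4 * β + 1 / β + 1 / ε1 + L1 with hL0
  have hb1 : 0 < 1 / β := by positivity
  have hb2 : 0 < 1 / ε1 := by positivity
  refine ⟨η, max (max X0 Xb) (Real.exp L0), hη, le_max_of_le_left (le_max_of_le_left hX0), ?_⟩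
  intro j T hX hT1 hT2
  have hXX0 : X0 ≤ X j := ((le_max_left _ _).trans (le_max_left _ _)).trans hX
  have hXXb : Xb ≤ X j := ((le_max_right _ _).trans (le_max_left _ _)).trans hX
  have hXe : Real.exp L0 ≤ X j := (le_max_right _ _).trans hX
  have hX1 : (1 : ℝ) ≤ X j := hX0.trans hXX0
  have hXpos : (0 : ℝ) < X j := by linarith
  obtain ⟨L, hL⟩ : ∃ L : ℝ, L = Real.log (X j) := ⟨_, rfl⟩
  have hLL0 : L0 ≤ L := by
    rw [hL, Real.le_log_iff_exp_le hXpos]; exact hXe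
  have hXη : (X j) ^ η = Real.exp (η * L) := by
    rw [Real.rpow_def_of_pos hXpos, mul_comm, hL]
  have hT2' : T ≤ Real.exp (η * L) := by rw [← hXη]; exact hT2
  rw [← hL] at hT1
  obtain ⟨p1, p2, p3, p4, p5, p6⟩ := H385.param_ok β L T η hβ hη1 (by linarith) (by linarith)
    hT1 hT2'
  have hTpos : 0 < T := by linarith
  have hT1' : 1 ≤ T := by linarith
  have hL8 : 8 ≤ L := by linarith
  obtain ⟨ℒ, hℒ⟩ : ∃ ℒ : ℝ, ℒ = Real.log (X j * T) := ⟨_, rfl⟩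
  have hlT : Real.log T ≤ η * L := by
    have := Real.log_le_log hTpos hT2'
    rwa [Real.log_exp] at this
  have hlT0 : 0 ≤ Real.log T := Real.log_nonneg hT1'
  have hℒs : ℒ = L + Real.log T := by rw [hℒ, Real.log_mul hXpos.ne' hTpos.ne', hL]
  have hLℒ : L ≤ ℒ := by linarith
  have hℒL : ℒ ≤ (1 + η) * L := by linarith
  have hℒ2 : ℒ ≤ 2 * L := hℒL.trans (mul_le_mul_of_nonneg_right (by linarith) (by linarith))
  have hℒ0 : 0 < ℒ := by linarith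
  obtain ⟨Yf, y1, y2, hy1, hy2, m1, m2, m3, m4, m5⟩ := hmain j T hXX0 (by rw [← hL]; exact hT1)
    (hT2.trans (Real.rpow_le_rpow_of_exponent_le hX1 hηη0))
  rw [← hL] at m1 m2 m3 m4 m5
  have hn : (0 : ℝ) < (s j).card := by exact_mod_cast (hne j).card_pos
  have hW : ∑ _i ∈ s j, ((s j).card : ℝ)⁻¹ = 1 := by
    rw [Finset.sum_const, nsmul_eq_mul]
    exact mul_inv_cancel₀ hn.ne'
  -- family data
  have hQT : ∀ p ∈ s j, Real.log (Q j p * T) ≤ ℒ := by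
    intro p hp
    have h1 := (hgood j p hp).1
    rw [hℒ]
    exact Real.log_le_log (by positivity)
      (mul_le_mul_of_nonneg_right (hgood j p hp).2.1 hTpos.le)
  have hQT0 : ∀ p ∈ s j, 0 ≤ Real.log (Q j p * T) := by
    intro p hp
    have h1 := (hgood j p hp).1
    exact Real.log_nonneg (NW.n6 h1 hT1')
  have hdata : ∀ p ∈ s j, 0 ≤ ((s j).card : ℝ)⁻¹ ∧ (1 : ℝ) ≤ Q j p ∧
      H385.GoodD d A (Q j p) (F j p) (a j p) ∧ Real.log (Q j p * T) ≤ ℒ := by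
    intro p hp
    exact ⟨inv_nonneg.mpr hn.le, (hgood j p hp).1, toDd (hgood j p hp).2.2.1
      (hgood j p hp).2.2.2, hQT p hp⟩
  have hexp : ℒ ^ 2 * Real.exp (β * L - L ^ 2 / 2) ≤ Real.exp (-(β * L)) := by
    exact le_trans (mul_le_mul_of_nonneg_right (NW.n4 hℒ0.le hℒ2) (Real.exp_pos _).le) p5
  have k1 := hfam (s j) (fun _ => ((s j).card : ℝ)⁻¹) (Q j) (F j) (a j)
    T L (β * L) ℒ y1 y2 Yf hdata p1 p2 p3 p4 (by linarith) hexp hy1 hy2 m1 m2 m3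
  have k2 := hfam' (s j) (fun _ => ((s j).card : ℝ)⁻¹) (Q j) (F j) (a j)
    T L (β * L) ℒ y1 y2 Yf hdata p1 p2 p3 p4 (by linarith) hexp hy1 hy2 m1 m2 m3
  -- the normalized conductors
  obtain ⟨x, hx⟩ : ∃ x : ι j → ℝ, ∀ i, x i = Real.log (Q j i * T) / ℒ := ⟨_, fun _ => rfl⟩
  have hxl : ∀ i, Real.log (Q j i * T) = ℒ * x i := fun i => by rw [hx]; field_simp
  have hx01 : ∀ i ∈ s j, 0 ≤ x i ∧ x i ≤ 1 := by
    intro i hi
    rw [hx]
    exact ⟨div_nonneg (hQT0 i hi) hℒ0.le, by rw [div_le_one hℒ0]; exact hQT i hi⟩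
  have hy1' : y ≤ 1 ∨ 1 < y := le_or_gt y 1
  have hbad' : (((s j).filter (fun i => x i < y)).card : ℝ) ≤ ρ * (s j).card := by
    refine le_trans ?_ (hXb j hXXb)
    have h1 : (s j).filter (fun i => x i < y) ⊆
        (s j).filter (fun i => Real.log (Q j i) < y * Real.log (X j)) := by
      intro i hi
      obtain ⟨h2, h3⟩ := Finset.mem_filter.mp hi
      refine Finset.mem_filter.mpr ⟨h2, ?_⟩
      rw [hx, div_lt_iff₀ hℒ0] at h3
      have hQ1 := (hgood j i h2).1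
      have hQp : 0 < Q j i := by linarith
      rw [Real.log_mul hQp.ne' hTpos.ne'] at h3
      rw [← hL]
      rcases hy1' with h5 | h5
      · have h4 : y * Real.log T ≤ Real.log T := mul_le_of_le_one_left hlT0 h5
        rw [hℒs, mul_add] at h3
        linarith
      · have h6 : Real.log (Q j i) ≤ L := by
          rw [hL]
          exact Real.log_le_log hQp (hgood j i h2).2.1
        have h7 : L < y * L := NW.n3 h5 (lt_of_lt_of_le (by norm_num) hL8)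
        exact h6.trans_lt h7
    exact_mod_cast Finset.card_le_card h1
  obtain ⟨w1, w2⟩ := avg_bound (s j) (hne j) x y ρ R4 c' β hβ hR40 hc' hy
    (by rw [hR4]; exact hcy) hρ.le hx01 hbad'
  obtain ⟨E1, hE1⟩ : ∃ E1 : ℝ, E1 = ((s j).card : ℝ)⁻¹ * ∑ i ∈ s j, x i := ⟨_, rfl⟩
  obtain ⟨E2, hE2⟩ : ∃ E2 : ℝ, E2 = ((s j).card : ℝ)⁻¹ * ∑ i ∈ s j, x i ^ 2 := ⟨_, rfl⟩
  rw [← hE1] at w1 w2
  rw [← hE2] at w1
  have hE20 : 0 ≤ E2 := by
    rw [hE2]
    exact mul_nonneg (inv_nonneg.mpr hn.le) (Finset.sum_nonneg fun _ _ => sq_nonneg _)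
  have hE21 : E2 ≤ 1 := by
    rw [hE2, inv_mul_le_iff₀ hn, mul_one]
    calc ∑ i ∈ s j, x i ^ 2 ≤ ∑ _i ∈ s j, (1 : ℝ) := by
          refine Finset.sum_le_sum fun i hi => ?_
          obtain ⟨h2, h3⟩ := hx01 i hi
          exact NW.n5 h2 h3
      _ = _ := by rw [Finset.sum_const, nsmul_eq_mul, mul_one]
  have hX2' : y ≤ 2 * E1 := NW.n12 hy hρ2 w2
  have hE10 : 0 ≤ E1 := by linarith
  have hX2 : y / 2 ≤ d * E1 := by
    have := mul_le_mul_of_nonneg_right hd hE10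
    linarith
  obtain ⟨AA, hAA⟩ : ∃ AA : ℝ, AA = (1 + η) * (R4 / β * E2) + c' := ⟨_, rfl⟩
  have hAK : AA ≤ (d * Rw γ 0 / β + c' / d) * (d * E1) + ε1 := by
    have h1 : (d * Rw γ 0 / β + c' / d) * (d * E1) = (R4 / β + c') * E1 := by
      rw [hR4]; field_simp
    rw [h1, hAA]
    have h2 : η * (R4 / β * E2) ≤ ε1 / 4 := by
      have h3 : R4 / β * E2 ≤ R4 / β * 1 := mul_le_mul_of_nonneg_left hE21 (by positivity)
      have h4 := mul_le_mul_of_nonneg_left h3 hη.le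
      rw [mul_one] at h4
      exact h4.trans hη2
    exact NW.n13 w1 hρ3 h2 hε1
  -- lower bound for the number of zeros
  obtain ⟨SN, hSNd⟩ : ∃ SN : ℝ, SN = ((s j).card : ℝ)⁻¹ *
    ∑ p ∈ s j, (NN (F j p) T (2 * T) : ℝ) := ⟨_, rfl⟩
  have hone : ∀ p ∈ s j, T / (2 * Real.pi) * ℒ * (d * x p) - 5 * C3 * T ≤
      (NN (F j p) T (2 * T) : ℝ) := by
    intro p hp
    have hQ1 := (hgood j p hp).1
    have hl := hlow (Q j p) (F j p) (a j p) hQ1 (hgood j p hp).2.2.1 T L p1 p2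
    have hlog0 := hQT0 p hp
    have hlog2 : Real.log (Q j p * T) ≤ 2 * L := (hQT p hp).trans hℒ2
    have e1 : T / (2 * Real.pi) * (d * Real.log (Q j p * T)) =
        T / (2 * Real.pi) * ℒ * (d * x p) := by
      rw [hxl p]; ring
    rw [e1] at hl
    have a2 : L * Real.log (Q j p * T) ≤ 2 * T := NW.n11 hlog2 (by linarith only [hL8]) hT1
    have a3 : T * Real.log (Q j p * T) ^ 2 * Real.exp (-L ^ 2 / 2) ≤ T := by
      have b2 : Real.log (Q j p * T) ^ 2 * Real.exp (-L ^ 2 / 2) ≤ 1 := by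
        exact le_trans (mul_le_mul_of_nonneg_right (NW.n7 hlog0 hlog2) (Real.exp_pos _).le) p6
      calc _ = T * (Real.log (Q j p * T) ^ 2 * Real.exp (-L ^ 2 / 2)) := by ring
        _ ≤ T * 1 := mul_le_mul_of_nonneg_left b2 hTpos.le
        _ = T := mul_one T
    have a4 : C3 * (T + L * Real.log (Q j p * T) + T * Real.log (Q j p * T) ^ 2 *
        Real.exp (-L ^ 2 / 2)) ≤ C3 * (5 * T) :=
      mul_le_mul_of_nonneg_left (by linarith only [a2, a3, hTpos]) hC3.le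
    linarith only [a4, hl]
  have hN : T / (2 * Real.pi) * ℒ * (d * E1) - 5 * C3 * (T + L * ℒ) ≤ SN := by
    have h1 := Finset.sum_le_sum hone
    rw [Finset.sum_sub_distrib, Finset.sum_const, nsmul_eq_mul, ← Finset.mul_sum,
      ← Finset.mul_sum] at h1
    have h2 := mul_le_mul_of_nonneg_left h1 (inv_nonneg.mpr hn.le)
    rw [← hSNd] at h2
    have e1 : ((s j).card : ℝ)⁻¹ * (T / (2 * Real.pi) * ℒ * (d * ∑ p ∈ s j, x p) -
        (s j).card * (5 * C3 * T)) = T / (2 * Real.pi) * ℒ * (d * E1) - 5 * C3 * T := by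
      rw [hE1]; exact n15d hn
    rw [e1] at h2
    have h3 : 0 ≤ 5 * C3 * (L * ℒ) := by
      have : 0 ≤ L := by linarith only [hL8]
      positivity
    linarith only [h2, h3]
  have hκT : L ≤ ε1 * T := by
    have h1 : 1 / ε1 ≤ L := by linarith
    rw [div_le_iff₀ hε1] at h1
    have h2 : L ≤ ε1 * L ^ 2 := NW.n8 h1 (by linarith only [hL8])
    exact h2.trans (mul_le_mul_of_nonneg_left hT1 hε1.le)
  have hW1 : Real.sqrt (∑ _i ∈ s j, ((s j).card : ℝ)⁻¹) = 1 := by rw [hW, Real.sqrt_one]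
  rw [hW, mul_one] at m4
  rw [hW1, mul_one] at m5
  have hs12 : Real.sqrt y1 + Real.sqrt y2 ≤ ε1 * ℒ := by
    exact m5.trans (NW.n9 hε1 (by linarith only [hL8]) hLℒ)
  have core : ∀ (D : ℝ) (G : ι j → ℝ), 0 < D → 2 * D ≤ CC →
      ∑ i ∈ s j, ((s j).card : ℝ)⁻¹ * G i ≤
        (∑ i ∈ s j, ((s j).card : ℝ)⁻¹ * (d * Real.log (Q j i * T)) ^ 2) * Rw γ 0 * T /
          (2 * Real.pi * (β * L)) +
        (2 / (Real.sqrt Real.pi * (β * L))) * (∫ u in (0 : ℝ)..(β * L),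
          Rw γ (u / (β * L)) * Yf u) +
        D * ((∑ _i ∈ s j, ((s j).card : ℝ)⁻¹) * (ℒ ^ 2 * L / (β * L) + ℒ * T / (β * L) + L * ℒ) +
          Real.sqrt (∑ _i ∈ s j, ((s j).card : ℝ)⁻¹) * ℒ * T * (Real.sqrt y1 + Real.sqrt y2) /
            (β * L)) →
      ∑ i ∈ s j, G i ≤ (d * Rw γ 0 / β + c' / d + ε) * ∑ i ∈ s j, (NN (F j i) T (2 * T) : ℝ) := by
    intro D G hD hDC hG
    rw [hW1, hW, one_mul, one_mul, ← Finset.mul_sum] at hG
    have hsq : ∑ i ∈ s j, ((s j).card : ℝ)⁻¹ * (d * Real.log (Q j i * T)) ^ 2 =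
        d ^ 2 * ℒ ^ 2 * E2 := by
      rw [hE2, ← Finset.mul_sum]
      have : ∀ i ∈ s j, (d * Real.log (Q j i * T)) ^ 2 = d ^ 2 * ℒ ^ 2 * x i ^ 2 := by
        intro i _
        rw [hxl i]; ring
      rw [Finset.sum_congr rfl this, ← Finset.mul_sum]
      ring
    rw [hsq] at hG
    have g1 : d ^ 2 * ℒ ^ 2 * E2 * Rw γ 0 * T / (2 * Real.pi * (β * L)) ≤
        T / (2 * Real.pi) * ℒ * ((1 + η) * (R4 / β * E2)) := by
      have hLpos : 0 < L := by linarith only [hL8]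
      have e1 : d ^ 2 * ℒ ^ 2 * E2 * Rw γ 0 * T / (2 * Real.pi * (β * L)) =
          T / (2 * Real.pi) * ℒ * (R4 / β * E2) * (ℒ / L) := by
        rw [hR4]
        have hpi := Real.pi_pos
        field_simp
      rw [e1]
      have e2 : ℒ / L ≤ 1 + η := by rw [div_le_iff₀ hLpos]; exact hℒL
      calc _ ≤ T / (2 * Real.pi) * ℒ * (R4 / β * E2) * (1 + η) :=
            mul_le_mul_of_nonneg_left e2 (by positivity)
        _ = _ := by ring
    have g2 : (2 / (Real.sqrt Real.pi * (β * L))) * (∫ u in (0 : ℝ)..(β * L),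
          Rw γ (u / (β * L)) * Yf u) ≤ T / (2 * Real.pi) * ℒ * (c' + ε1 / 2) := by
      refine m4.trans ?_
      have hpi := Real.pi_pos
      gcongr
    have g3 : D * ((ℒ ^ 2 * L / (β * L) + ℒ * T / (β * L) + L * ℒ) +
          ℒ * T * (Real.sqrt y1 + Real.sqrt y2) / (β * L)) ≤
        CC * ((ℒ ^ 2 * L / (β * ℒ) + ℒ * T / (β * ℒ) + L * ℒ) +
          ℒ * T * (Real.sqrt y1 + Real.sqrt y2) / (β * ℒ)) := by
      have hLpos : 0 < L := by linarith only [hL8]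
      have hinv : 1 / (β * L) ≤ 2 * (1 / (β * ℒ)) := NW.n10 hβ hLpos hℒ0 hℒ2
      have hS0 : 0 ≤ Real.sqrt y1 + Real.sqrt y2 := by positivity
      have b1 : ℒ ^ 2 * L / (β * L) ≤ 2 * (ℒ ^ 2 * L / (β * ℒ)) := by
        have := mul_le_mul_of_nonneg_left hinv (show 0 ≤ ℒ ^ 2 * L by positivity)
        calc _ = ℒ ^ 2 * L * (1 / (β * L)) := by ring
          _ ≤ _ := this
          _ = _ := by ring
      have b2 : ℒ * T / (β * L) ≤ 2 * (ℒ * T / (β * ℒ)) := by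
        have := mul_le_mul_of_nonneg_left hinv (show 0 ≤ ℒ * T by positivity)
        calc _ = ℒ * T * (1 / (β * L)) := by ring
          _ ≤ _ := this
          _ = _ := by ring
      have b3 : ℒ * T * (Real.sqrt y1 + Real.sqrt y2) / (β * L) ≤
          2 * (ℒ * T * (Real.sqrt y1 + Real.sqrt y2) / (β * ℒ)) := by
        have := mul_le_mul_of_nonneg_left hinv
          (show 0 ≤ ℒ * T * (Real.sqrt y1 + Real.sqrt y2) by positivity)
        calc _ = ℒ * T * (Real.sqrt y1 + Real.sqrt y2) * (1 / (β * L)) := by ring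
          _ ≤ _ := this
          _ = _ := by ring
      have b4 : 0 ≤ L * ℒ := by positivity
      obtain ⟨Z, hZ⟩ : ∃ Z : ℝ, Z = (ℒ ^ 2 * L / (β * ℒ) + ℒ * T / (β * ℒ) + L * ℒ) +
          ℒ * T * (Real.sqrt y1 + Real.sqrt y2) / (β * ℒ) := ⟨_, rfl⟩
      have hZ0 : 0 ≤ Z := by rw [hZ]; positivity
      rw [← hZ]
      calc D * ((ℒ ^ 2 * L / (β * L) + ℒ * T / (β * L) + L * ℒ) +
          ℒ * T * (Real.sqrt y1 + Real.sqrt y2) / (β * L)) ≤ D * (2 * Z) :=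
            mul_le_mul_of_nonneg_left (by rw [hZ]; linarith only [b1, b2, b3, b4]) hD.le
        _ = 2 * D * Z := by ring
        _ ≤ CC * Z := mul_le_mul_of_nonneg_right hDC hZ0
    have hSM : ((s j).card : ℝ)⁻¹ * ∑ i ∈ s j, G i ≤ T / (2 * Real.pi) * ℒ * (AA + ε1) +
        CC * ((ℒ ^ 2 * L / (β * ℒ) + ℒ * T / (β * ℒ) + L * ℒ) +
          ℒ * T * (Real.sqrt y1 + Real.sqrt y2) / (β * ℒ)) := by
      have hpi := Real.pi_pos
      have e2 : 0 ≤ T / (2 * Real.pi) * ℒ * (ε1 / 2) := by positivity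
      rw [hAA]
      exact NW.n14 e2 g1 g2 g3 hG
    have hres := hnum T ℒ L (Real.sqrt y1 + Real.sqrt y2) AA (d * E1)
      (((s j).card : ℝ)⁻¹ * ∑ i ∈ s j, G i) SN hTpos (by linarith) (by linarith) hκT hs12 hX2
      hAK hSM hN
    rw [hSNd] at hres
    have h' : ((s j).card : ℝ)⁻¹ * ∑ i ∈ s j, G i ≤ ((s j).card : ℝ)⁻¹ *
        ((d * Rw γ 0 / β + c' / d + ε) * ∑ i ∈ s j, (NN (F j i) T (2 * T) : ℝ)) := by
      refine hres.trans (le_of_eq ?_); ring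
    exact le_of_mul_le_mul_left h' (inv_pos.mpr hn)
  have c1 : 2 * C1 ≤ CC := by rw [hCC]; have := le_max_left C1 C1'; linarith
  have c2 : 2 * C1' ≤ CC := by rw [hCC]; have := le_max_right C1 C1'; linarith
  exact ⟨core C1 _ hC1 c1 k1, core C1' _ hC1' c2 k2⟩

end Pool.Agent.Helper503_HW
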