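import Pool.Agent.Helper503_HW.LowD

/-!
# Large abelian quotients of the narrow ray class groups of a number field

Adapted from `Pool.Agent.Y773.AB.Art`, where the field is imaginary quadratic.
-/

set_option autoImplicit false
set_option linter.unusedSectionVars false

open NumberField Filter Topology MeasureTheory

namespace Pool.Agent.Helper503_HW

open Pool.Agent.Y773 (TPos LI cc)
open Pool.Agent.Y767 (Mq Mq_cop Mq_ne_bot Cls cls cls_pi cK card_dual finite_dual gr_exists grm grm_of)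
open Pool.Agent.Y773.IQ (absNorm_pos' Fam tM tM_coe cd cd_spec LL LL_eq good ne_zero_of_cop)
open Pool.Agent.Helper503_UI
open Pool.Agent.Y773.AB (kap)
open H370 (zset NN Ns Nd)
open Algebra (GrothendieckGroup)

section

variable {K : Type} [Field K] [NumberField K]

/-- a homomorphism of the monoid of ideals which is trivial on the ray factors through the ray
class group -/
theorem exists_alpha {𝔮 : Ideal (𝓞 K)} (htop : 𝔮 ≠ ⊤) {G : Type} [CommGroup G]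
    (art : Mq 𝔮 →* G) (h1 : ∀ x : T1 htop, art (pi1 htop x) = 1) :
    ∃ α : Cls (pi1 htop) →* G, ∀ x, α (cls (pi1 htop) x) = art x := by
  have hl : ∀ (a : Mq 𝔮), GrothendieckGroup.lift art (GrothendieckGroup.of a) = art a :=
    fun a => DFunLike.congr_fun (GrothendieckGroup.lift.symm_apply_apply art) a
  have hk : (grm (pi1 htop)).range ≤ (GrothendieckGroup.lift art).ker := by
    rintro _ ⟨g, rfl⟩
    obtain ⟨a, b, hab⟩ := gr_exists g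
    have h2 : grm (pi1 htop) g * GrothendieckGroup.of (pi1 htop b) =
        GrothendieckGroup.of (pi1 htop a) := by
      rw [← grm_of, ← grm_of, ← hab, map_mul]
    have h3 := congrArg (GrothendieckGroup.lift art) h2
    rw [map_mul, hl, hl, h1, h1, mul_one] at h3
    exact h3
  exact ⟨QuotientGroup.lift _ (GrothendieckGroup.lift art) hk, fun x => hl x⟩

/-- the members of the family which belong to the quotient -/
def FamA (𝔮 : Ideal (𝓞 K)) {G : Type} [CommGroup G] (art : Mq 𝔮 →* G) :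
    Set (Ideal (𝓞 K) →*₀ ℂ) :=
  {ψ | ψ ∈ Fam 𝔮 ∧ ∃ χ : G →* ℂˣ, ∀ x : Mq 𝔮, ψ (x : Ideal (𝓞 K)) = (χ (art x) : ℂˣ)}

/-- the subgroup of the characters of the quotient -/
theorem exists_H {𝔮 : Ideal (𝓞 K)} (htop : 𝔮 ≠ ⊤) {G : Type} [CommGroup G] [Finite G]
    (art : Mq 𝔮 →* G) (h1 : ∀ x : T1 htop, art (pi1 htop x) = 1)
    (hs : Function.Surjective art) :
    ∃ H : Subgroup (Cls (pi1 htop) →* ℂˣ), Nat.card H = Nat.card G ∧
      FamH htop H = FamA 𝔮 art := by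
  obtain ⟨α, hα⟩ := exists_alpha htop art h1
  have hαs : Function.Surjective α := by
    intro g
    obtain ⟨x, rfl⟩ := hs g
    exact ⟨_, hα x⟩
  refine ⟨(MonoidHom.compHom' (P := ℂˣ) α).range, ?_, ?_⟩
  · rw [← card_dual G]
    refine (Nat.card_congr (MonoidHom.ofInjective (f := MonoidHom.compHom' (P := ℂˣ) α) ?_).toEquiv).symm
    intro χ χ' h
    refine MonoidHom.ext fun g => ?_
    obtain ⟨c, rfl⟩ := hαs g
    exact DFunLike.congr_fun h c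
  · ext ψ
    constructor
    · rintro ⟨h2, F, ⟨χ, rfl⟩, h3⟩
      refine ⟨h2, χ, fun x => ?_⟩
      rw [← tM_coe htop h2, h3]
      change ((χ (α (cls (pi1 htop) x)) : ℂˣ) : ℂ) = _
      rw [hα]
    · rintro ⟨h2, χ, h3⟩
      refine ⟨h2, _, ⟨χ, rfl⟩, ?_⟩
      refine MonoidHom.ext fun x => ?_
      ext
      rw [tM_coe htop h2, h3]
      change _ = ((χ (α (cls (pi1 htop) x)) : ℂˣ) : ℂ)
      rw [hα]

/-- the characters of the quotient which are ramified come from exactly one primitive character -/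
theorem FamA_unique {𝔮 : Ideal (𝓞 K)} (hbot : 𝔮 ≠ ⊥) (htop : 𝔮 ≠ ⊤) {G : Type} [CommGroup G]
    (art : Mq 𝔮 →* G) (h1 : ∀ x : T1 htop, art (pi1 htop x) = 1) (χ : G →* ℂˣ)
    (hχ : ∃ (x : 𝓞 K) (hx : IsCoprime (Ideal.span {x}) 𝔮), TPos K x ∧
      χ (art ⟨Ideal.span {x}, hx⟩) ≠ 1) :
    ∃! ψ : Ideal (𝓞 K) →*₀ ℂ, ψ ∈ FamA 𝔮 art ∧
      ∀ x : Mq 𝔮, ψ (x : Ideal (𝓞 K)) = (χ (art x) : ℂˣ) := by
  rcases exists_prim' hbot htop (χ.comp art) (by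
      intro x
      change χ (art (pi1 htop x)) = 1
      rw [h1, map_one]) with h | ⟨𝔣, ψ, h2, h3, h4, h5⟩
  · exfalso
    obtain ⟨x, hx, hx0, hx1⟩ := hχ
    exact hx1 (h x hx hx0)
  · have h6 : ∀ x : Mq 𝔮, ψ (x : Ideal (𝓞 K)) = (χ (art x) : ℂˣ) := fun x => h5 x
    refine ⟨ψ, ⟨⟨⟨𝔣, h2, h3, h4⟩, χ, h6⟩, h6⟩, ?_⟩
    rintro ψ' ⟨⟨⟨𝔣', h2', h3', h4'⟩, -⟩, h6'⟩
    refine prim_unique' hbot h4' h4 h2' h2 h3' h3 fun 𝔞 h𝔞 => ?_
    rw [h6' ⟨𝔞, h𝔞⟩, h6 ⟨𝔞, h𝔞⟩]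

end

section

variable (K : Type) [Field K] [NumberField K]

/-- the family theorem for large quotients of the ray class group -/
theorem mainGK (δ : ℝ) (hδ : 2 / 3 < δ) (hδ1 : δ < 1) (ε : ℝ)
    (hε : 0 < ε) : ∃ η X₀ : ℝ, 0 < η ∧ 1 < X₀ ∧ ∀ (𝔮 : Ideal (𝓞 K)) (_ : 𝔮 ≠ ⊥) (htop : 𝔮 ≠ ⊤)
      (G : Type) [CommGroup G] [Finite G] (art : Mq 𝔮 →* G),
      (∀ x : T1 htop, art (pi1 htop x) = 1) → Function.Surjective art →
      X₀ ≤ (Ideal.absNorm 𝔮 : ℝ) → (Ideal.absNorm 𝔮 : ℝ) ^ δ ≤ Nat.card G →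
      (FamA 𝔮 art).Finite ∧ (FamA 𝔮 art).Nonempty ∧
      Nat.card G ≤ (FamA 𝔮 art).ncard + hK K ∧
      ∀ T : ℝ, (Real.log (Ideal.absNorm 𝔮)) ^ 2 ≤ T → T ≤ (Ideal.absNorm 𝔮 : ℝ) ^ η →
        1 ≤ T ∧ (∀ ψ ∈ FamA 𝔮 art, (zset (LL K ψ) T (2 * T)).Finite) ∧
        (2 - kap δ - ε) * ∑ᶠ ψ ∈ FamA 𝔮 art, (NN (LL K ψ) T (2 * T) : ℝ) ≤
          ∑ᶠ ψ ∈ FamA 𝔮 art, (Ns (LL K ψ) T (2 * T) : ℝ) ∧
        (3 - kap δ - ε) / 2 * ∑ᶠ ψ ∈ FamA 𝔮 art, (NN (LL K ψ) T (2 * T) : ℝ) ≤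
          ∑ᶠ ψ ∈ FamA 𝔮 art, (Nd (LL K ψ) T (2 * T) : ℝ) := by
  classical
  obtain ⟨η, X₀, hη, hmain⟩ := mainD K δ hδ hδ1 ε hε
  refine ⟨η, max X₀ 2, hη, lt_of_lt_of_le (by norm_num) (le_max_right _ _), ?_⟩
  intro 𝔮 hbot htop G _ _ art h1 hs hX hG
  obtain ⟨H, hH, hfam⟩ := exists_H htop art h1 hs
  have hfin := FamH_finite hbot htop H
  obtain ⟨S, hS, hne, hlog, hT⟩ := hmain 𝔮 hbot htop H ((le_max_left _ _).trans hX)
    (by rw [hH]; exact hG)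
  rw [← hfam]
  have hSe : FamH htop H = (S : Set (Ideal (𝓞 K) →*₀ ℂ)) := by
    ext ψ
    rw [Finset.mem_coe, hS]
  refine ⟨hfin, ?_, ?_, fun T hT1 hT2 => ?_⟩
  · rw [hSe]
    exact_mod_cast hne
  · have := FamH_lower hbot htop H
    rwa [hH] at this
  · obtain ⟨t1, t2, t3, t4⟩ := hT T hT1 hT2
    rw [hSe, finsum_mem_coe_finset, finsum_mem_coe_finset, finsum_mem_coe_finset]
    refine ⟨t1, fun ψ hψ => t2 ψ hψ, ?_, ?_⟩
    · rw [Finset.sum_sub_distrib, ← Finset.mul_sum] at t3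
      linarith
    · rw [Finset.sum_sub_distrib, ← Finset.mul_sum, ← Finset.mul_sum] at t4
      linarith

end

end Pool.Agent.Helper503_HW
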