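import Pool.Agent.Helper503_HW.FinK
import Pool.Agent.Helper503_UI.Exi

/-!
# Ray class fields of large degree

For every number field there are ideals `𝔮` of arbitrarily large norm such that the narrow ray class
field modulo `𝔮` has degree at least `N(𝔮)^δ`, where `δ < 1` is arbitrary.
-/

set_option autoImplicit false
set_option linter.unusedSectionVars false

open NumberField Filter Topology

namespace Pool.Agent.Helper503_HW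

open Pool.Agent.Y773 (TPos)
open Pool.Agent.Y767 (Mq Mq_cop Mq_ne_bot Cls cls cls_pi cls_of_mul)
open Pool.Agent.Y773.IQ (dv divisor_bound norm_le_tau_phi exists_ge)
open Pool.Agent.Helper503_UI

section

variable {K : Type} [Field K] [NumberField K]

lemma cls_card_le_of {𝔮 : Ideal (𝓞 K)} (hbot : 𝔮 ≠ ⊥) (htop : 𝔮 ≠ ⊤) {G : Type} [CommGroup G]
    [Finite G] (art : Mq 𝔮 →* G) (h1 : ∀ x : T1 htop, art (pi1 htop x) = 1)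
    (hk : ∀ 𝔞 : Mq 𝔮, art 𝔞 = 1 → cls (pi1 htop) 𝔞 = 1) :
    Nat.card (Cls (pi1 htop)) ≤ Nat.card G := by
  obtain ⟨α, hα⟩ := exists_alpha htop art h1
  refine Nat.card_le_card_of_injective α ((injective_iff_map_eq_one α).mpr fun c hc => ?_)
  obtain ⟨𝔞, rfl⟩ := exists_rep hbot htop c
  exact hk 𝔞 (by rw [← hα, hc])

end

variable (K : Type) [Field K] [NumberField K]

lemma cls_large (δ : ℝ) (hδ : δ < 1) : ∃ κ N0 : ℝ, 0 < κ ∧ ∀ (𝔮 : Ideal (𝓞 K)) (_ : 𝔮 ≠ ⊥)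
    (htop : 𝔮 ≠ ⊤), N0 ≤ (Ideal.absNorm 𝔮 : ℝ) → (ku 𝔮 : ℝ) ≤ (Ideal.absNorm 𝔮 : ℝ) ^ κ →
      (Ideal.absNorm 𝔮 : ℝ) ^ δ ≤ Nat.card (Cls (pi1 htop)) := by
  obtain ⟨κ, hκ⟩ : ∃ κ : ℝ, κ = (1 - δ) / 3 := ⟨_, rfl⟩
  have hκ0 : 0 < κ := by rw [hκ]; linarith
  obtain ⟨C, hC, hdiv⟩ := divisor_bound K hκ0
  obtain ⟨N0, hN0, h0⟩ := exists_ge κ C hκ0
  refine ⟨κ, N0, hκ0, fun 𝔮 hbot htop hN hku => ?_⟩
  have hN1 := one_le_absNorm K hbot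
  have hNp : (0 : ℝ) < Ideal.absNorm 𝔮 := by linarith
  have a1 := norm_le_tau_phi hbot
  have a2 := card_units_le hbot htop
  have a4 := hdiv 𝔮 hbot
  have a5 := h0 _ hN
  have b1 : (Ideal.absNorm 𝔮 : ℝ) ≤ (dv 𝔮).ncard * Nat.card (𝓞 K ⧸ 𝔮)ˣ := by exact_mod_cast a1
  have b2 : (Nat.card (𝓞 K ⧸ 𝔮)ˣ : ℝ) ≤ ku 𝔮 * Nat.card (Cls (pi1 htop)) := by
    exact_mod_cast a2
  have hp : 0 < (Ideal.absNorm 𝔮 : ℝ) ^ κ := Real.rpow_pos_of_pos hNp _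
  obtain ⟨w, hw⟩ : ∃ w : ℝ, w = (Ideal.absNorm 𝔮 : ℝ) ^ κ := ⟨_, rfl⟩
  rw [← hw] at a4 a5 hku hp
  have e1 : (Ideal.absNorm 𝔮 : ℝ) ^ δ * (w * w * w) = Ideal.absNorm 𝔮 := by
    rw [hw, ← Real.rpow_add hNp, ← Real.rpow_add hNp, ← Real.rpow_add hNp]
    have : δ + (κ + κ + κ) = 1 := by rw [hκ]; ring
    rw [this, Real.rpow_one]
  refine le_of_mul_le_mul_right ?_ (by positivity : 0 < w * w * w)
  rw [e1]
  calc (Ideal.absNorm 𝔮 : ℝ) ≤ (dv 𝔮).ncard * Nat.card (𝓞 K ⧸ 𝔮)ˣ := b1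
    _ ≤ (C * w) * (ku 𝔮 * Nat.card (Cls (pi1 htop))) :=
        mul_le_mul a4 b2 (Nat.cast_nonneg _) (by positivity)
    _ ≤ (w * w) * (w * Nat.card (Cls (pi1 htop))) := by
        refine mul_le_mul (mul_le_mul_of_nonneg_right a5 hp.le)
          (mul_le_mul_of_nonneg_right hku (Nat.cast_nonneg _)) (by positivity) (by positivity)
    _ = _ := by ring

theorem exists_rayK (δ : ℝ) (hδ : δ < 1) (X : ℝ) : ∃ 𝔮 : Ideal (𝓞 K), 𝔮 ≠ ⊥ ∧ 𝔮 ≠ ⊤ ∧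
    X ≤ (Ideal.absNorm 𝔮 : ℝ) ∧
    ∀ (E : Type) [Field E] [NumberField E] [Algebra K E] [IsAbelianGalois K E]
        (art : Ideal (𝓞 K) → (E ≃ₐ[K] E)), IsArtK 𝔮 art →
      (∀ 𝔞 : Ideal (𝓞 K), IsCoprime 𝔞 𝔮 → art 𝔞 = 1 → ∃ x y : 𝓞 K, x - 1 ∈ 𝔮 ∧ y - 1 ∈ 𝔮 ∧
        TPos K x ∧ TPos K y ∧ Ideal.span {x} * 𝔞 = Ideal.span {y}) →
      (Ideal.absNorm 𝔮 : ℝ) ^ δ ≤ Module.finrank K E := by
  obtain ⟨κ, N0, hκ, h⟩ := cls_large K δ hδ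
  obtain ⟨𝔮, hbot, hB, hku, -, -⟩ := exists_modulus K κ (max (max X N0) 2) hκ 1 one_ne_zero
  have hX : X ≤ (Ideal.absNorm 𝔮 : ℝ) := ((le_max_left _ _).trans (le_max_left _ _)).trans hB
  have hN : N0 ≤ (Ideal.absNorm 𝔮 : ℝ) := ((le_max_right _ _).trans (le_max_left _ _)).trans hB
  have h2 : (2 : ℝ) ≤ (Ideal.absNorm 𝔮 : ℝ) := (le_max_right _ _).trans hB
  have htop : 𝔮 ≠ ⊤ := by
    rintro rfl
    rw [Ideal.absNorm_top] at h2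
    norm_num at h2
  refine ⟨𝔮, hbot, htop, hX, fun E _ _ _ _ art hart hker => ?_⟩
  let _ : CommGroup (E ≃ₐ[K] E) := Pool.Agent.Y773.AB.cgr K E
  have hcard : Nat.card (E ≃ₐ[K] E) = Module.finrank K E := IsGalois.card_aut_eq_finrank K E
  rw [← hcard]
  refine (h 𝔮 hbot htop hN hku).trans ?_
  have := cls_card_le_of hbot htop (artM hart) (fun x => hart.ray x (T1_mem x) (T1_pos x)) (by
    intro 𝔞 h1
    obtain ⟨x, y, hx, hy, px, py, hxy⟩ := hker 𝔞 (Mq_cop 𝔞) h1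
    have e1 : pi1 htop ⟨x, hx, px⟩ * 𝔞 = pi1 htop ⟨y, hy, py⟩ * 1 := by
      apply Subtype.ext
      rw [mul_one, Submonoid.coe_mul, pi1_coe, pi1_coe]
      exact hxy
    have e2 := cls_of_mul e1
    rw [e2, map_one])
  exact_mod_cast this

end Pool.Agent.Helper503_HW
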