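import Pool.Agent.Helper503_HW.MainZK
import Pool.Agent.Y773.AB.Fin

/-!
# The zeta function of a large abelian extension of a number field

Adapted from `Pool.Agent.Y773.AB.Fin`, where the ground field is imaginary quadratic.
-/

set_option autoImplicit false
set_option linter.unusedSectionVars false

open NumberField Complex Filter Topology Set

namespace Pool.Agent.Helper503_HW

open Pool.Agent.Y773 (TPos LI zz hasSum_log norm_zz_lt)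
open Pool.Agent.Y767 (Mq Mq_cop Mq_ne_bot)
open Pool.Agent.Y773.IQ (ofM' ofM'_pos cop_one)
open Pool.Agent.Helper503_UI (T1 pi1 pi1_coe T1_mem T1_pos)
open Pool.Agent.Y773.AB (Rg NL kap Rad etc etc_cop etc_not eta eta_cop eta_not eta_norm map_ne_top
  cgr FrobAt exists_frob hasProd_sub upper_ne hasProd_prime cop_iff prod_LI count_congr
  order_mul_ne NN_prod Ns_le_NL norm_char fin_dual)
open H370 (zset NN Ns Nd mult)

section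

variable {K E : Type} [Field K] [NumberField K] [Field E] [NumberField E] [Algebra K E]

/-- `art` is the Artin map of `E/K` with modulus `𝔮` and all the real places -/
structure IsArtK (𝔮 : Ideal (𝓞 K)) (art : Ideal (𝓞 K) → (E ≃ₐ[K] E)) : Prop where
  mul : ∀ 𝔞 𝔟 : Ideal (𝓞 K), IsCoprime 𝔞 𝔮 → IsCoprime 𝔟 𝔮 → art (𝔞 * 𝔟) = art 𝔞 * art 𝔟
  frob : ∀ 𝔭 : Ideal (𝓞 K), Prime 𝔭 → IsCoprime 𝔭 𝔮 → FrobAt 𝔭 (art 𝔭)
  ray : ∀ x : 𝓞 K, x - 1 ∈ 𝔮 → TPos K x → art (Ideal.span {x}) = 1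

/-- the map on the ideals prime to the modulus -/
def artM {𝔮 : Ideal (𝓞 K)} {art : Ideal (𝓞 K) → (E ≃ₐ[K] E)} (h : IsArtK 𝔮 art) :
    Mq 𝔮 →* (E ≃ₐ[K] E) where
  toFun x := art x
  map_one' := by
    have h1 := h.mul 1 1 isCoprime_one_left isCoprime_one_left
    rw [mul_one] at h1
    exact (mul_eq_left.mp h1.symm)
  map_mul' x y := h.mul x y (Mq_cop x) (Mq_cop y)

/-- surjectivity -/
theorem artM_surj [IsAbelianGalois K E] {𝔮 : Ideal (𝓞 K)} (hbot : 𝔮 ≠ ⊥)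
    {art : Ideal (𝓞 K) → (E ≃ₐ[K] E)} (h : IsArtK 𝔮 art) : Function.Surjective (artM h) := by
  intro g
  obtain ⟨𝔭, P, h1, h2, h3, h4, h5⟩ := exists_frob K E 𝔮 hbot g
  refine ⟨⟨𝔭, h2⟩, ?_⟩
  change art 𝔭 = g
  obtain ⟨h6, h7⟩ := h.frob 𝔭 h1 h2 P ⟨h3, h4⟩
  have h8 : g * (art 𝔭)⁻¹ = 1 := by
    refine h6 _ fun z => ?_
    have e1 := h5 ((art 𝔭)⁻¹ • z) (g • ((art 𝔭)⁻¹ • z)) rfl
    have e2 := h7 ((art 𝔭)⁻¹ • z)
    have e3 := P.sub_mem e1 e2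
    rw [sub_sub_sub_cancel_right, smul_inv_smul] at e3
    rw [mul_smul]
    exact e3
  exact (mul_inv_eq_one.mp h8).symm

end

variable (K : Type) [Field K] [NumberField K]

theorem finalZK (δ : ℝ) (hδ : 2 / 3 < δ) (hδ1 : δ < 1) (ε : ℝ)
    (hε : 0 < ε) : ∃ η X₀ : ℝ, 0 < η ∧ 1 < X₀ ∧ ∀ (𝔮 : Ideal (𝓞 K)), 𝔮 ≠ ⊥ → 𝔮 ≠ ⊤ →
      X₀ ≤ (Ideal.absNorm 𝔮 : ℝ) →
      ∀ (E : Type) [Field E] [NumberField E] [Algebra K E] [IsAbelianGalois K E]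
        (art : Ideal (𝓞 K) → (E ≃ₐ[K] E)), IsArtK 𝔮 art →
      (Ideal.absNorm 𝔮 : ℝ) ^ δ ≤ Module.finrank K E → ∀ n : ℕ, 1 ≤ n →
      (∀ 𝔭 : Ideal (𝓞 K), Prime 𝔭 → 𝔭 ∣ 𝔮 → (n : 𝓞 K) ∈ 𝔭) →
      ∃ (L : ((E ≃ₐ[K] E) →* ℂˣ) → ℂ → ℂ) (Z : ℂ → ℂ),
        (∀ χ s, s ≠ 1 → AnalyticAt ℂ (L χ) s) ∧
        (∀ χ s, 1 < s.re → HasProd (fun 𝔭 : {𝔭 : Ideal (𝓞 K) // Prime 𝔭 ∧ (n : 𝓞 K) ∉ 𝔭} =>
          (1 - ((χ (art 𝔭) : ℂˣ) : ℂ) * ((Ideal.absNorm (𝔭 : Ideal (𝓞 K)) : ℕ) : ℂ) ^ (-s))⁻¹)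
          (L χ s)) ∧
        (∀ s, s ≠ 1 → AnalyticAt ℂ Z s) ∧
        (∀ s, 1 < s.re → HasProd (fun P : {P : Ideal (𝓞 E) // Prime P ∧ (n : 𝓞 E) ∉ P} =>
          (1 - ((Ideal.absNorm (P : Ideal (𝓞 E)) : ℕ) : ℂ) ^ (-s))⁻¹) (Z s)) ∧
        (∀ s, Z s = ∏ᶠ χ, L χ s) ∧
        ∀ T : ℝ, (Real.log (Ideal.absNorm 𝔮)) ^ 2 ≤ T → T ≤ (Ideal.absNorm 𝔮 : ℝ) ^ η →
          (zset Z T (2 * T)).Finite ∧
          (Module.finrank K E : ℝ) * T ≤ NN Z T (2 * T) ∧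
          (2 - kap δ - ε) * (NN Z T (2 * T) : ℝ) ≤ NL Z T (2 * T) ∧
          NN Z T (2 * T) = ∑ᶠ χ, NN (L χ) T (2 * T) ∧
          (2 - kap δ - ε) * (NN Z T (2 * T) : ℝ) ≤ ((∑ᶠ χ, Ns (L χ) T (2 * T) : ℕ) : ℝ) ∧
          (3 - kap δ - ε) / 2 * (NN Z T (2 * T) : ℝ) ≤ ((∑ᶠ χ, Nd (L χ) T (2 * T) : ℕ) : ℝ) := by
  classical
  obtain ⟨η, X₀, hη, hX₀, H⟩ := mainZK K δ hδ hδ1 ε hε
  refine ⟨η, X₀, hη, hX₀, fun 𝔮 hbot htop hX E _ _ _ _ art hart hE n hn1 hrad => ?_⟩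
  let _ : CommGroup (E ≃ₐ[K] E) := cgr K E
  have hcard : Nat.card (E ≃ₐ[K] E) = Module.finrank K E := IsGalois.card_aut_eq_finrank K E
  obtain ⟨𝔫, h𝔫⟩ : ∃ 𝔫 : Ideal (𝓞 K), 𝔫 = Ideal.span {(n : 𝓞 K)} := ⟨_, rfl⟩
  have hn0 : (n : 𝓞 K) ≠ 0 := Nat.cast_ne_zero.mpr (by omega)
  have hnb : 𝔫 ≠ ⊥ := by
    rw [h𝔫, Ne, Ideal.span_singleton_eq_bot]
    exact hn0
  have hdvd : ∀ 𝔭 : Ideal (𝓞 K), 𝔭 ∣ 𝔫 ↔ (n : 𝓞 K) ∈ 𝔭 := by
    intro 𝔭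
    rw [h𝔫, Ideal.dvd_span_singleton]
  have hn : 𝔫 ≠ ⊤ := by
    obtain ⟨𝔭, h𝔭, hle⟩ := Ideal.exists_le_maximal _ htop
    have h1 : 𝔭 ≠ ⊥ := by
      rintro rfl
      exact hbot (le_bot_iff.mp hle)
    have hp : Prime 𝔭 := Ideal.prime_of_isPrime h1 h𝔭.isPrime
    have h2 := hrad 𝔭 hp (Ideal.dvd_iff_le.mpr hle)
    intro h3
    have h4 := Ideal.dvd_iff_le.mp ((hdvd 𝔭).mpr h2)
    rw [h3] at h4
    exact h𝔭.ne_top (top_le_iff.mp h4)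
  have hr : Rad 𝔮 𝔫 := fun 𝔭 h𝔭 hd => (hdvd 𝔭).mpr (hrad 𝔭 h𝔭 hd)
  have hmap : 𝔫.map (algebraMap (𝓞 K) (𝓞 E)) = Ideal.span {(n : 𝓞 E)} := by
    rw [h𝔫, Ideal.map_span, Set.image_singleton, map_natCast]
  have hfd : Finite ((E ≃ₐ[K] E) →* ℂˣ) := fin_dual
  let hft : Fintype ((E ≃ₐ[K] E) →* ℂˣ) := Fintype.ofFinite _
  obtain ⟨A, hA⟩ : ∃ A : Mq 𝔮 →* (E ≃ₐ[K] E), A = artM hart := ⟨_, rfl⟩
  have hAs : Function.Surjective A := by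
    rw [hA]
    exact artM_surj hbot hart
  have hAe : ∀ (𝔞 : Ideal (𝓞 K)) (h : IsCoprime 𝔞 𝔮), A ⟨𝔞, h⟩ = art 𝔞 := by
    intro 𝔞 h
    rw [hA]
    rfl
  have hA1 : ∀ x : T1 htop, A (pi1 htop x) = 1 := by
    intro x
    rw [hA]
    exact hart.ray x (T1_mem x) (T1_pos x)
  obtain ⟨F, hF, hFL, hFT⟩ := H 𝔮 hbot htop 𝔫 hnb hn hr (E ≃ₐ[K] E) A hA1 hAs hX
    (by rw [hcard]; exact hE)
  have hψ : ∀ (χ : (E ≃ₐ[K] E) →* ℂˣ) (𝔞 : Ideal (𝓞 K)), ‖etc htop hn A χ 𝔞‖ ≤ 1 := by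
    intro χ 𝔞
    by_cases h : IsCoprime 𝔞 𝔫
    · rw [etc_cop hbot htop hn hr A χ h, norm_char]
    · rw [etc_not htop hn A χ h, norm_zero]
      exact zero_le_one
  have hnum : ∀ χ s, s ≠ 1 → AnalyticAt ℂ (fun z => F χ z / (z - 1)) s := fun χ s hs =>
    ((hF χ).analyticAt s).div ((differentiable_id.sub_const 1).analyticAt s) (sub_ne_zero.mpr hs)
  have hLv : ∀ χ s, 1 < s.re → F χ s / (s - 1) = LI (etc htop hn A χ) s := by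
    intro χ s hs
    have h1 : s - 1 ≠ 0 := by
      intro h0
      have h5 := congrArg Complex.re h0
      simp at h5
      linarith
    rw [hFL χ s hs, mul_div_cancel_left₀ _ h1]
  refine ⟨fun χ s => F χ s / (s - 1), fun s => ∏ χ, F χ s / (s - 1), hnum, ?_, ?_, ?_, ?_, ?_⟩
  · intro χ s hs
    change HasProd _ (F χ s / (s - 1))
    rw [hLv χ s hs]
    have h1 := hasProd_prime (hψ χ) hs
    have h3 := hasProd_sub (f := fun 𝔭 : Ideal (𝓞 K) =>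
      (1 - etc htop hn A χ 𝔭 * ((Ideal.absNorm 𝔭 : ℕ) : ℂ) ^ (-s))⁻¹) (q := fun 𝔭 => (n : 𝓞 K) ∉ 𝔭)
      h1 (by
        intro 𝔭 h𝔭 hq
        rw [not_not] at hq
        rw [etc_not htop hn A χ (fun h => (cop_iff h𝔭).mp h ((hdvd 𝔭).mpr hq)), zero_mul, sub_zero,
          inv_one])
    refine h3.congr_fun fun 𝔭 => ?_
    have h4 : IsCoprime (𝔭 : Ideal (𝓞 K)) 𝔫 :=
      (cop_iff 𝔭.2.1).mpr fun h => 𝔭.2.2 ((hdvd _).mp h)
    rw [etc_cop hbot htop hn hr A χ h4, hAe]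
  · intro s hs
    exact Finset.analyticAt_fun_prod _ fun χ _ => hnum χ s hs
  · intro s hs
    have h1 := hasProd_prime (eta_norm (map_ne_top (E := E) hn hnb)) hs
    have h0 : ∏ χ, F χ s / (s - 1) =
        LI (eta (𝔫.map (algebraMap (𝓞 K) (𝓞 E))) (map_ne_top hn hnb)) s := by
      rw [← prod_LI hbot htop hnb hn hr A (MulEquiv.refl _) (by
        intro 𝔭 hc h𝔭
        rw [MulEquiv.refl_apply, hAe]
        exact hart.frob 𝔭 h𝔭 hc) hs]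
      exact Finset.prod_congr rfl fun χ _ => hLv χ s hs
    have hdE : ∀ P : Ideal (𝓞 E), P ∣ 𝔫.map (algebraMap (𝓞 K) (𝓞 E)) ↔ (n : 𝓞 E) ∈ P := by
      intro P
      rw [hmap, Ideal.dvd_span_singleton]
    have h3 := hasProd_sub (f := fun P : Ideal (𝓞 E) =>
      (1 - eta (𝔫.map (algebraMap (𝓞 K) (𝓞 E))) (map_ne_top hn hnb) P *
        ((Ideal.absNorm P : ℕ) : ℂ) ^ (-s))⁻¹) (q := fun P => (n : 𝓞 E) ∉ P)
      h1 (by
        intro P hP hq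
        rw [not_not] at hq
        rw [eta_not _ (fun h => (cop_iff hP).mp h ((hdE P).mpr hq)), zero_mul, sub_zero,
          inv_one])
    rw [← h0] at h3
    refine h3.congr_fun fun P => ?_
    have h4 : IsCoprime (P : Ideal (𝓞 E)) (𝔫.map (algebraMap (𝓞 K) (𝓞 E))) :=
      (cop_iff P.2.1).mpr fun h => P.2.2 ((hdE _).mp h)
    rw [eta_cop _ P.2.1 h4, one_mul]
  · intro s
    rw [finprod_eq_prod_of_fintype]
  · intro T hT1 hT2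
    obtain ⟨hT, hfin, g1, g2, g3⟩ := hFT T hT1 hT2
    have hT0 : 0 ≤ T := by linarith
    have hnt : ∀ χ, ∀ s ∈ Rg T (2 * T), analyticOrderAt (F χ) s ≠ ⊤ := by
      intro χ s _
      have h5 : (2 : ℂ) - 1 ≠ 0 := by norm_num
      refine H370.Loc.order_ne_top (K := Set.univ) isPreconnected_univ
        (fun z _ => (hF χ).analyticAt z) (c := 2) (Set.mem_univ _) ?_ (Set.mem_univ _)
      rw [hFL χ 2 (by norm_num)]
      refine mul_ne_zero h5 ?_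
      rw [Pool.Agent.Y772.DK.LI_eq_exp _ (hψ χ) (by norm_num)]
      exact Complex.exp_ne_zero _
    have hu : ∀ s ∈ Rg T (2 * T), AnalyticAt ℂ (fun z : ℂ => (z - 1)⁻¹) s ∧ (s - 1)⁻¹ ≠ 0 := by
      intro s hs
      have h1 := upper_ne hT0 hs
      exact ⟨((differentiable_id.sub_const 1).analyticAt s).inv h1, inv_ne_zero h1⟩
    obtain ⟨p1, p2, p3⟩ := NN_prod (F := F) (Z := fun s => ∏ χ, F χ s / (s - 1))
      (u := fun z => ∏ _χ : (E ≃ₐ[K] E) →* ℂˣ, (z - 1)⁻¹) (T1 := T) (T2 := 2 * T)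
      (fun χ s _ => (hF χ).analyticAt s) hnt hfin (by
        intro s hs
        exact ⟨Finset.analyticAt_fun_prod _ fun _ _ => (hu s hs).1,
          Finset.prod_ne_zero_iff.mpr fun _ _ => (hu s hs).2⟩) (by
        intro s _
        refine Filter.Eventually.of_forall fun z => ?_
        change ∏ χ, F χ z / (z - 1) = (∏ χ, F χ z) * ∏ _χ : (E ≃ₐ[K] E) →* ℂˣ, (z - 1)⁻¹
        rw [← Finset.prod_mul_distrib]
        exact Finset.prod_congr rfl fun χ _ => div_eq_mul_inv _ _)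
    have hcc : ∀ χ, zset (fun s => F χ s / (s - 1)) T (2 * T) = zset (F χ) T (2 * T) ∧
        NN (fun s => F χ s / (s - 1)) T (2 * T) = NN (F χ) T (2 * T) ∧
        Ns (fun s => F χ s / (s - 1)) T (2 * T) = Ns (F χ) T (2 * T) ∧
        Nd (fun s => F χ s / (s - 1)) T (2 * T) = Nd (F χ) T (2 * T) := by
      intro χ
      refine count_congr (fun s hs => hnum χ s fun h => upper_ne hT0 hs (sub_eq_zero.mpr h))
        (fun s _ => (hF χ).analyticAt s) fun s hs => ?_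
      exact order_mul_ne ((hF χ).analyticAt s) (hu s hs).1 (hu s hs).2
        (Filter.Eventually.of_forall fun z => div_eq_mul_inv _ _)
    have hp2 : (NN (fun s => ∏ χ, F χ s / (s - 1)) T (2 * T) : ℝ) =
        ∑ χ, (NN (F χ) T (2 * T) : ℝ) := by
      rw [p2]
      push_cast
      rfl
    rw [finsum_eq_sum_of_fintype, finsum_eq_sum_of_fintype, finsum_eq_sum_of_fintype]
    refine ⟨p1, ?_, ?_, ?_, ?_, ?_⟩
    · rw [hp2, ← hcard]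
      exact g1
    · rw [hp2]
      refine g2.trans ?_
      rw [p3]
      push_cast
      refine Finset.sum_le_sum fun χ _ => ?_
      exact_mod_cast Ns_le_NL (hfin χ)
    · rw [p2]
      exact Finset.sum_congr rfl fun χ _ => (hcc χ).2.1.symm
    · rw [hp2]
      refine g2.trans (le_of_eq ?_)
      push_cast
      exact Finset.sum_congr rfl fun χ _ => by rw [(hcc χ).2.2.1]
    · rw [hp2]
      refine g3.trans (le_of_eq ?_)
      push_cast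
      exact Finset.sum_congr rfl fun χ _ => by rw [(hcc χ).2.2.2]

end Pool.Agent.Helper503_HW
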