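import Pool.Agent.Helper503_HW.AsmD
import Pool.Agent.Y773.AB.Low

/-! # A lower bound for the number of zeros of the family -/

set_option autoImplicit false
set_option linter.unusedSectionVars false

open NumberField Filter Topology MeasureTheory

namespace Pool.Agent.Helper503_HW

open Pool.Agent.Y773 (TPos LI cc)
open Pool.Agent.Y767 (Mq Cls cls cK finite_dual)
open Pool.Agent.Y773.IQ (absNorm_pos' Fam tM cd cd_spec LL LL_eq good)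
open Pool.Agent.Helper503_UI

open H370 (zset NN Ns Nd)

theorem NN_oneD (d A : ℝ) (hd : 1 ≤ d) (hA : 1 ≤ A) (y : ℝ) (hy : 0 < y) (R : ℝ) (hR : 0 ≤ R) :
    ∃ L1 : ℝ, 0 < L1 ∧
    ∀ (L Q T : ℝ) (F : ℂ → ℂ) (a : ℕ → ℂ), L1 ≤ L → 1 ≤ Q → y * L ≤ Real.log Q →
      Real.log Q ≤ L → W388.LV.GoodG d A Q F a → L ^ 2 ≤ T → T ≤ Real.exp L →
      R * T ≤ (NN F T (2 * T) : ℝ) := by
  obtain ⟨C3, hC3, hlow⟩ := W388.LV.N_lower_D d A hd hA
  have hpi := Real.pi_pos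
  refine ⟨12 + 2 * Real.pi * (4 * C3 + R) / y, by positivity,
    fun L Q T F a hL hQ h1 h2 hG hT1 hT2 => ?_⟩
  have hpos : 0 ≤ 2 * Real.pi * (4 * C3 + R) / y := by positivity
  obtain ⟨p1, p2, p3, p4, p5, p6⟩ := H385.param_ok 1 L T 1 one_pos le_rfl (by linarith)
    (by linarith) hT1 (by rw [one_mul]; exact hT2)
  have hT0 : 1 ≤ T := by linarith
  have hTp : 0 < T := by linarith
  have hQp : 0 < Q := by linarith
  have hlT : Real.log T ≤ L := by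
    have := Real.log_le_log hTp hT2
    rwa [Real.log_exp] at this
  have hlT0 := Real.log_nonneg hT0
  have hm : Real.log (Q * T) = Real.log Q + Real.log T := Real.log_mul hQp.ne' hTp.ne'
  have hl := hlow Q F a hQ hG T L p1 p2
  obtain ⟨m, hmd⟩ : ∃ m : ℝ, m = Real.log (Q * T) := ⟨_, rfl⟩
  rw [← hmd] at hm hl
  have hm1 : y * L ≤ m := by linarith
  have hm2 : m ≤ 2 * L := by linarith
  have hm0 : 0 ≤ m := by
    have : 0 ≤ y * L := by positivity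
    linarith
  have a2 : L * m ≤ 2 * T := Pool.Agent.Y773.AB.NW.n11 hm2 (by linarith) hT1
  have a3 : T * m ^ 2 * Real.exp (-L ^ 2 / 2) ≤ T := by
    have b2 : m ^ 2 * Real.exp (-L ^ 2 / 2) ≤ 1 :=
      le_trans (mul_le_mul_of_nonneg_right (Pool.Agent.Y773.AB.NW.n7 hm0 hm2)
        (Real.exp_pos _).le) p6
    calc _ = T * (m ^ 2 * Real.exp (-L ^ 2 / 2)) := by ring
      _ ≤ T * 1 := mul_le_mul_of_nonneg_left b2 hTp.le
      _ = T := mul_one T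
  have a4 : C3 * (T + L * m + T * m ^ 2 * Real.exp (-L ^ 2 / 2)) ≤ C3 * (4 * T) :=
    mul_le_mul_of_nonneg_left (by linarith) hC3.le
  have a5 : T * (4 * C3 + R) ≤ T / (2 * Real.pi) * (d * m) := by
    have h3 : 2 * Real.pi * (4 * C3 + R) ≤ y * L := by
      have h4 : 2 * Real.pi * (4 * C3 + R) / y ≤ L := by linarith
      rw [div_le_iff₀ hy] at h4
      linarith
    have h5 : 2 * Real.pi * (4 * C3 + R) ≤ m := h3.trans hm1
    have h6 : m ≤ d * m := le_mul_of_one_le_left hm0 hd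
    have h7 : T / (2 * Real.pi) * (2 * Real.pi * (4 * C3 + R)) ≤ T / (2 * Real.pi) * (d * m) :=
      mul_le_mul_of_nonneg_left (h5.trans h6) (by positivity)
    refine le_trans (le_of_eq ?_) h7
    field_simp
  linarith

variable (K : Type) [Field K] [NumberField K]

theorem lowD (δ : ℝ) (hδ0 : 0 < δ) (hδ1 : δ < 1) :
    ∃ N1 κ : ℝ, 3 ≤ N1 ∧ 0 < κ ∧ ∀ (𝔮 : Ideal (𝓞 K)) (_ : 𝔮 ≠ ⊥) (htop : 𝔮 ≠ ⊤)
      (H : Subgroup (Cls (pi1 htop) →* ℂˣ)), N1 ≤ (Ideal.absNorm 𝔮 : ℝ) →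
      (Ideal.absNorm 𝔮 : ℝ) ^ δ ≤ Nat.card H →
      ∀ S : Finset (Ideal (𝓞 K) →*₀ ℂ), (∀ ψ, ψ ∈ S ↔ ψ ∈ FamH htop H) →
      ∀ T : ℝ, (Real.log (Ideal.absNorm 𝔮)) ^ 2 ≤ T → T ≤ (Ideal.absNorm 𝔮 : ℝ) ^ κ →
        (Nat.card H : ℝ) * T ≤ ∑ ψ ∈ S, (NN (LL K ψ) T (2 * T) : ℝ) := by
  classical
  obtain ⟨A, hA, hgood⟩ := good K
  obtain ⟨n, hn⟩ : ∃ n : ℝ, n = (Module.finrank ℚ K : ℝ) := ⟨_, rfl⟩
  have hn1 : 1 ≤ n := by
    have := Module.finrank_pos (R := ℚ) (M := K)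
    rw [hn]; exact_mod_cast this
  have hn0 : 0 < n := by linarith
  have hni : 0 < 1 / n := by positivity
  have hni1 : 1 / n ≤ 1 := by rw [div_le_one hn0]; exact hn1
  rw [← hn] at hgood
  obtain ⟨N2, hN2, hnum⟩ := numK K δ (δ / 2) hδ0 (by linarith) (by linarith) (by linarith)
  obtain ⟨N3, hN3, hcd⟩ := numK' K δ (δ / 2) hδ0 (by linarith) (1 / 2) (by norm_num)
  obtain ⟨L1, hL1, hone⟩ := NN_oneD n A hn1 hA (δ / 2) (by linarith) 4 (by norm_num)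
  refine ⟨max N2 (max N3 (Real.exp (n * L1))), 1 / n, hN2.trans (le_max_left _ _), hni, ?_⟩
  intro 𝔮 hbot htop H hN hH S hS T hT1 hT2
  have k1 : N2 ≤ (Ideal.absNorm 𝔮 : ℝ) := (le_max_left _ _).trans hN
  have k2 : N3 ≤ (Ideal.absNorm 𝔮 : ℝ) := ((le_max_left _ _).trans (le_max_right _ _)).trans hN
  have k3 : Real.exp (n * L1) ≤ (Ideal.absNorm 𝔮 : ℝ) :=
    ((le_max_right _ _).trans (le_max_right _ _)).trans hN
  have hNp : (0 : ℝ) < (Ideal.absNorm 𝔮 : ℝ) := by linarith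
  obtain ⟨-, n2, n4⟩ := hnum 𝔮 hbot htop H k1 hH
  have n3 := hcd 𝔮 hbot htop H S hS k2 n2
  have hfin := FamH_finite hbot htop H
  have hSf : S = hfin.toFinset := by
    ext ψ
    rw [hS, hfin.mem_toFinset]
  have hcard : ((FamH htop H).ncard : ℝ) = (S.card : ℝ) := by
    rw [hSf, Set.ncard_eq_toFinset_card _ hfin]
  rw [hcard] at n2 n4
  obtain ⟨L, hL⟩ : ∃ L : ℝ, L = 1 / n * Real.log (Ideal.absNorm 𝔮) := ⟨_, rfl⟩
  have hlog : n * L1 ≤ Real.log (Ideal.absNorm 𝔮) := by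
    rw [Real.le_log_iff_exp_le hNp]; exact k3
  have hlog0 : 0 ≤ Real.log (Ideal.absNorm 𝔮) := le_trans (by positivity) hlog
  have hLL1 : L1 ≤ L := by
    rw [hL]
    calc L1 = 1 / n * (n * L1) := by field_simp
      _ ≤ _ := mul_le_mul_of_nonneg_left hlog hni.le
  have hexpL : Real.exp L = (Ideal.absNorm 𝔮 : ℝ) ^ (1 / n) := by
    rw [Real.rpow_def_of_pos hNp, hL, mul_comm]
  have hkey : ∀ ψ ∈ S.filter (fun ψ => ¬ (Ideal.absNorm (cd 𝔮 ψ) : ℝ) ≤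
      (Ideal.absNorm 𝔮 : ℝ) ^ (δ / 2)), 4 * T ≤ (NN (LL K ψ) T (2 * T) : ℝ) := by
    intro ψ hψ
    obtain ⟨h3, h4⟩ := Finset.mem_filter.mp hψ
    rw [not_le] at h4
    obtain ⟨c1, c2, c3⟩ := cd_spec ((hS ψ).mp h3).1
    have c4 := one_le_absNorm K c3.ne_bot
    have c5 : (0 : ℝ) < (Ideal.absNorm (cd 𝔮 ψ) : ℝ) := by linarith
    obtain ⟨F, hF, hFL, hG⟩ := hgood _ ψ c2 c3
    rw [← LL_eq K hF hFL] at hG
    have hlQ : Real.log ((Ideal.absNorm (cd 𝔮 ψ) : ℝ) ^ (1 / n)) =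
        1 / n * Real.log (Ideal.absNorm (cd 𝔮 ψ)) := Real.log_rpow c5 _
    refine hone L _ T _ _ hLL1 (Real.one_le_rpow c4 hni.le) ?_ ?_ hG ?_ ?_
    · rw [hlQ, hL]
      have h5 := Real.log_lt_log (Real.rpow_pos_of_pos hNp _) h4
      rw [Real.log_rpow hNp] at h5
      calc δ / 2 * (1 / n * Real.log (Ideal.absNorm 𝔮)) =
          1 / n * (δ / 2 * Real.log (Ideal.absNorm 𝔮)) := by ring
        _ ≤ _ := mul_le_mul_of_nonneg_left h5.le hni.le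
    · rw [hlQ, hL]
      have h6 : Ideal.absNorm (cd 𝔮 ψ) ≤ Ideal.absNorm 𝔮 :=
        Nat.le_of_dvd (absNorm_pos' hbot)
          (Ideal.absNorm_dvd_absNorm_of_le (Ideal.dvd_iff_le.mp c1))
      have h7 := Real.log_le_log c5 (show (Ideal.absNorm (cd 𝔮 ψ) : ℝ) ≤ (Ideal.absNorm 𝔮 : ℝ) by
        exact_mod_cast h6)
      exact mul_le_mul_of_nonneg_left h7 hni.le
    · refine le_trans ?_ hT1
      rw [hL]
      exact pow_le_pow_left₀ (by positivity) (mul_le_of_le_one_left hlog0 hni1) 2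
    · rw [hexpL]; exact hT2
  have hcount : (S.card : ℝ) / 2 ≤ ((S.filter (fun ψ => ¬ (Ideal.absNorm (cd 𝔮 ψ) : ℝ) ≤
      (Ideal.absNorm 𝔮 : ℝ) ^ (δ / 2))).card : ℝ) := by
    have h3 := Finset.card_filter_add_card_filter_not (s := S) (fun ψ =>
      (Ideal.absNorm (cd 𝔮 ψ) : ℝ) ≤ (Ideal.absNorm 𝔮 : ℝ) ^ (δ / 2))
    have h4 : ((S.filter (fun ψ => (Ideal.absNorm (cd 𝔮 ψ) : ℝ) ≤
      (Ideal.absNorm 𝔮 : ℝ) ^ (δ / 2))).card : ℝ) + ((S.filter (fun ψ => ¬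
        (Ideal.absNorm (cd 𝔮 ψ) : ℝ) ≤ (Ideal.absNorm 𝔮 : ℝ) ^ (δ / 2))).card : ℝ) = S.card := by
      exact_mod_cast h3
    linarith
  have hT0 : 0 ≤ T := le_trans (sq_nonneg _) hT1
  have hHS : (Nat.card H : ℝ) ≤ 2 * S.card := by
    have hS0 : (0 : ℝ) ≤ S.card := Nat.cast_nonneg _
    have hH0 : (0 : ℝ) ≤ Nat.card H := Nat.cast_nonneg _
    nlinarith
  calc (Nat.card H : ℝ) * T ≤ ((S.filter (fun ψ => ¬ (Ideal.absNorm (cd 𝔮 ψ) : ℝ) ≤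
        (Ideal.absNorm 𝔮 : ℝ) ^ (δ / 2))).card : ℝ) * (4 * T) := by nlinarith
    _ ≤ ∑ ψ ∈ S.filter (fun ψ => ¬ (Ideal.absNorm (cd 𝔮 ψ) : ℝ) ≤
        (Ideal.absNorm 𝔮 : ℝ) ^ (δ / 2)), (NN (LL K ψ) T (2 * T) : ℝ) := by
        have := Finset.card_nsmul_le_sum _ _ (4 * T) hkey
        rwa [nsmul_eq_mul] at this
    _ ≤ _ := Finset.sum_le_sum_of_subset_of_nonneg (Finset.filter_subset _ _)
        (fun _ _ _ => Nat.cast_nonneg _)

end Pool.Agent.Helper503_HW
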