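import Pool.Agent.Helper503_HW.Thn
import Pool.Agent.Helper503_UI.Num
import Pool.Agent.Y773.AB.NumW

/-!
# Thin families of narrow ray class characters: the number of characters

Adapted from `Pool.Agent.Y773.AB.NumW`, where the field is imaginary quadratic.
-/

set_option autoImplicit false
set_option linter.unusedSectionVars false

open NumberField Filter Topology MeasureTheory

namespace Pool.Agent.Helper503_HW

open Pool.Agent.Y773 (TPos cc)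
open Pool.Agent.Y767 (Mq Mq_cop Mq_ne_bot Cls cls cls_pi cK card_dual finite_dual)
open Pool.Agent.Y773.IQ (absNorm_pos' Fam tM tM_coe card_units_le_norm
  dv divisor_bound exists_ge cd cd_spec)
open Pool.Agent.Helper503_UI
open Pool.Agent.Y773.AB (ev)

section

variable {K : Type} [Field K] [NumberField K]

/-- the primitive characters in the thin family -/
def FamH {𝔮 : Ideal (𝓞 K)} (htop : 𝔮 ≠ ⊤) (H : Subgroup (Cls (pi1 htop) →* ℂˣ)) :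
    Set (Ideal (𝓞 K) →*₀ ℂ) :=
  {ψ | ψ ∈ Fam 𝔮 ∧ ∃ F ∈ H, tM 𝔮 ψ = F.comp (cls (pi1 htop))}

lemma FamH_sub {𝔮 : Ideal (𝓞 K)} (htop : 𝔮 ≠ ⊤) (H : Subgroup (Cls (pi1 htop) →* ℂˣ)) :
    FamH htop H ⊆ Fam 𝔮 := fun _ h => h.1

lemma FamH_finite {𝔮 : Ideal (𝓞 K)} (hbot : 𝔮 ≠ ⊥) (htop : 𝔮 ≠ ⊤)
    (H : Subgroup (Cls (pi1 htop) →* ℂˣ)) : (FamH htop H).Finite :=
  (Fam_finite hbot htop).1.subset (FamH_sub htop H)

lemma FamH_lower {𝔮 : Ideal (𝓞 K)} (hbot : 𝔮 ≠ ⊥) (htop : 𝔮 ≠ ⊤)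
    (H : Subgroup (Cls (pi1 htop) →* ℂˣ)) :
    Nat.card H ≤ (FamH htop H).ncard + hK K := by
  have hfc : Finite (Cls (pi1 htop)) := (cls_card_le hbot htop).1
  have hfd := finite_dual (Cls (pi1 htop))
  have hfH : Finite H := inferInstance
  obtain ⟨h1, h2⟩ := D1_card hbot htop
  have hinj : Function.Injective (fun F : H => (F : Cls (pi1 htop) →* ℂˣ).comp (cls (pi1 htop))) := by
    intro F F' h
    apply Subtype.ext
    refine MonoidHom.ext fun c => ?_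
    obtain ⟨𝔞, rfl⟩ := exists_rep hbot htop c
    exact DFunLike.congr_fun h 𝔞
  have hsub : Set.range (fun F : H => (F : Cls (pi1 htop) →* ℂˣ).comp (cls (pi1 htop))) ⊆
      tM 𝔮 '' FamH htop H ∪ D0 𝔮 := by
    rintro _ ⟨F, rfl⟩
    rcases exists_prim' hbot htop ((F : Cls (pi1 htop) →* ℂˣ).comp (cls (pi1 htop))) (by
      intro x
      change (F : Cls (pi1 htop) →* ℂˣ) (cls (pi1 htop) (pi1 htop x)) = 1
      rw [cls_pi, map_one]) with h | ⟨𝔣, ψ, h3, h4, h5, h6⟩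
    · exact Or.inr h
    · left
      have hψ : ψ ∈ Fam 𝔮 := ⟨𝔣, h3, h4, h5⟩
      have he : tM 𝔮 ψ = (F : Cls (pi1 htop) →* ℂˣ).comp (cls (pi1 htop)) := by
        ext x
        rw [tM_coe htop hψ, h6]
      exact ⟨ψ, ⟨hψ, F.1, F.2, he⟩, he⟩
  have hf := FamH_finite hbot htop H
  have h3 : Nat.card H = (Set.range (fun F : H =>
      (F : Cls (pi1 htop) →* ℂˣ).comp (cls (pi1 htop)))).ncard := by
    rw [← Set.image_univ, Set.ncard_image_of_injective _ hinj, Set.ncard_univ]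
  rw [h3]
  refine (Set.ncard_le_ncard hsub ((hf.image _).union (h1.subset (D0_sub htop)))).trans ?_
  refine (Set.ncard_union_le _ _).trans ?_
  exact Nat.add_le_add (Set.ncard_image_le hf) (D0_card hbot htop)

lemma hK_pos (K : Type) [Field K] [NumberField K] : 1 ≤ hK K := by
  unfold hK
  have h1 : 0 < Nat.card (ClassGroup (𝓞 K)) := Nat.card_pos
  have h2 : 0 < Nat.card ((K →+* ℂ) → Bool) := Nat.card_pos
  exact Nat.mul_pos h1 h2

variable (K)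

/-- the numerical facts -/
theorem numK (δ s : ℝ) (hδ0 : 0 < δ) (hs : 0 < s) (hsδ : s < δ)
    (hs1 : s ≤ 1) :
    ∃ N0 : ℝ, 3 ≤ N0 ∧ ∀ (𝔮 : Ideal (𝓞 K)) (_ : 𝔮 ≠ ⊥) (htop : 𝔮 ≠ ⊤)
      (H : Subgroup (Cls (pi1 htop) →* ℂˣ)), N0 ≤ (Ideal.absNorm 𝔮 : ℝ) →
      (Ideal.absNorm 𝔮 : ℝ) ^ δ ≤ Nat.card H →
      ((Nat.card (ev H).ker * ku 𝔮 : ℕ) : ℝ) ≤ (Ideal.absNorm 𝔮 : ℝ) ^ (1 - δ + s) ∧
      (1 / 2) * (Ideal.absNorm 𝔮 : ℝ) ^ δ ≤ ((FamH htop H).ncard : ℝ) ∧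
      (1 + s / 2) * Nat.card H ≤ (1 + s) * ((FamH htop H).ncard : ℝ) := by
  obtain ⟨h, hh⟩ : ∃ h : ℝ, h = hK K := ⟨_, rfl⟩
  have hh0 : 1 ≤ h := by
    rw [hh]
    exact_mod_cast hK_pos K
  obtain ⟨N1, hN1, h1⟩ := exists_ge s h hs
  obtain ⟨N2, hN2, h2⟩ := exists_ge δ (4 * h / s + 2 * h) hδ0
  refine ⟨max 3 (max N1 N2), le_max_left _ _, fun 𝔮 hbot htop H hN hH => ?_⟩
  have k1 := h1 _ (((le_max_left _ _).trans (le_max_right _ _)).trans hN)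
  have k2 := h2 _ (((le_max_right _ _).trans (le_max_right _ _)).trans hN)
  have hfc : Finite (Cls (pi1 htop)) := (cls_card_le hbot htop).1
  have hl := FamH_lower hbot htop H
  have hl' : (Nat.card H : ℝ) ≤ ((FamH htop H).ncard : ℝ) + h := by
    rw [hh]; exact_mod_cast hl
  obtain ⟨N, hNd⟩ : ∃ N : ℝ, N = (Ideal.absNorm 𝔮 : ℝ) := ⟨_, rfl⟩
  have hNge : 1 ≤ N := by rw [hNd]; exact one_le_absNorm K hbot
  have hNp : 0 < N := by linarith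
  have hcl : ((Nat.card (ev H).ker * ku 𝔮 : ℕ) : ℝ) * Nat.card H ≤
      (Ideal.absNorm 𝔮 : ℝ) * hK K := by
    exact_mod_cast ker_ku_le hbot htop H
  rw [← hNd] at k1 k2 hH hcl ⊢
  rw [← hh] at hcl
  have hNδ : 0 < N ^ δ := Real.rpow_pos_of_pos hNp _
  have hHp : 0 < (Nat.card H : ℝ) := lt_of_lt_of_le hNδ hH
  refine ⟨?_, ?_, ?_⟩
  · have h4 : ((Nat.card (ev H).ker * ku 𝔮 : ℕ) : ℝ) * N ^ δ ≤ N * N ^ s := by
      calc _ ≤ ((Nat.card (ev H).ker * ku 𝔮 : ℕ) : ℝ) * Nat.card H :=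
            mul_le_mul_of_nonneg_left hH (Nat.cast_nonneg _)
        _ ≤ N * h := hcl
        _ ≤ _ := mul_le_mul_of_nonneg_left k1 hNp.le
    have h5 : N ^ (1 - δ + s) * N ^ δ = N * N ^ s := by
      rw [← Real.rpow_add hNp]
      calc N ^ (1 - δ + s + δ) = N ^ (1 + s) := by congr 1; ring
        _ = _ := by rw [Real.rpow_add hNp, Real.rpow_one]
    rw [← h5] at h4
    exact le_of_mul_le_mul_right h4 hNδ
  · have h3 : 2 * h ≤ N ^ δ := by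
      have : 0 ≤ 4 * h / s := by positivity
      linarith
    linarith
  · have h3 : 4 * h ≤ s * N ^ δ := by
      have h4 : 4 * h / s ≤ N ^ δ := by linarith
      rw [div_le_iff₀ hs] at h4
      linarith
    have h4 : 4 * h ≤ s * Nat.card H := h3.trans (mul_le_mul_of_nonneg_left hH hs.le)
    have h5 : (1 + s) * (Nat.card H : ℝ) ≤ (1 + s) * (((FamH htop H).ncard : ℝ) + h) :=
      mul_le_mul_of_nonneg_left hl' (by linarith)
    have h6 : (1 + s) * h ≤ 2 * h := mul_le_mul_of_nonneg_right (by linarith) (by linarith)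
    nlinarith

/-- few small conductors -/
theorem numK' (δ y : ℝ) (hδ0 : 0 < δ) (hy : y < δ) (ρ : ℝ)
    (hρ : 0 < ρ) : ∃ N0 : ℝ, 1 ≤ N0 ∧ ∀ (𝔮 : Ideal (𝓞 K)) (_ : 𝔮 ≠ ⊥) (htop : 𝔮 ≠ ⊤)
      (H : Subgroup (Cls (pi1 htop) →* ℂˣ)) (S : Finset (Ideal (𝓞 K) →*₀ ℂ)),
      (∀ ψ, ψ ∈ S ↔ ψ ∈ FamH htop H) → N0 ≤ (Ideal.absNorm 𝔮 : ℝ) →
      (1 / 2) * (Ideal.absNorm 𝔮 : ℝ) ^ δ ≤ ((FamH htop H).ncard : ℝ) →
      (open Classical in
        ((S.filter (fun ψ => (Ideal.absNorm (cd 𝔮 ψ) : ℝ) ≤ (Ideal.absNorm 𝔮 : ℝ) ^ y)).card : ℝ)) ≤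
        ρ * S.card := by
  classical
  obtain ⟨C, hC, hdiv⟩ := divisor_bound K (ε := (δ - y) / 2) (by linarith)
  obtain ⟨h, hh⟩ : ∃ h : ℝ, h = hK K := ⟨_, rfl⟩
  have hh0 : 0 ≤ h := by rw [hh]; exact Nat.cast_nonneg _
  obtain ⟨N1, hN1, h1⟩ := exists_ge ((δ - y) / 2) (2 * C * h / ρ) (by linarith)
  refine ⟨N1, hN1, fun 𝔮 hbot htop H S hS hN hlow => ?_⟩
  have k2 := h1 _ hN
  obtain ⟨N, hNd⟩ : ∃ N : ℝ, N = (Ideal.absNorm 𝔮 : ℝ) := ⟨_, rfl⟩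
  have hNge : 1 ≤ N := by rw [hNd]; exact one_le_absNorm K hbot
  have hNp : 0 < N := by linarith
  have hSc : (S.card : ℝ) = ((FamH htop H).ncard : ℝ) := by
    have : (FamH htop H) = (S : Set _) := by
      ext ψ; rw [Finset.mem_coe, hS]
    rw [this, Set.ncard_coe_finset]
  rw [← hSc] at hlow
  rw [← hNd] at k2 hlow ⊢
  have m1 := small_cond hbot (N ^ y) (Real.rpow_nonneg hNp.le _)
    (S.filter (fun ψ => (Ideal.absNorm (cd 𝔮 ψ) : ℝ) ≤ N ^ y)) (by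
    intro ψ hψ
    obtain ⟨u1, u2⟩ := Finset.mem_filter.mp hψ
    exact ⟨((hS ψ).mp u1).1, u2⟩)
  have v1 := hdiv 𝔮 hbot
  rw [← hNd] at v1
  rw [← hh] at m1
  have hNy : 0 < N ^ y := Real.rpow_pos_of_pos hNp _
  have hNe : 0 < N ^ ((δ - y) / 2) := Real.rpow_pos_of_pos hNp _
  have v2 : N ^ ((δ - y) / 2) * N ^ y * N ^ ((δ - y) / 2) = N ^ δ := by
    rw [← Real.rpow_add hNp, ← Real.rpow_add hNp]
    congr 1; ring
  rw [div_le_iff₀ hρ] at k2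
  calc _ ≤ (dv 𝔮).ncard * (N ^ y * h) := m1
    _ ≤ (C * N ^ ((δ - y) / 2)) * (N ^ y * h) := mul_le_mul_of_nonneg_right v1 (by positivity)
    _ = (N ^ ((δ - y) / 2) * N ^ y) * (C * h) := by ring
    _ ≤ (N ^ ((δ - y) / 2) * N ^ y) * (N ^ ((δ - y) / 2) * ρ / 2) := by
        refine mul_le_mul_of_nonneg_left ?_ (by positivity)
        linarith
    _ = ρ * (1 / 2 * (N ^ ((δ - y) / 2) * N ^ y * N ^ ((δ - y) / 2))) := by ring
    _ ≤ _ := by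
        rw [v2]
        exact mul_le_mul_of_nonneg_left hlow hρ.le

end

end Pool.Agent.Helper503_HW
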