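import Pool.Agent.Helper503_HW.Fib
import Pool.Agent.Y773.AB.Thin

/-! # The large sieve for thin families of narrow ray class characters of a number field

Adapted from `Pool.Agent.Y773.AB.Thin`, where the field is imaginary quadratic. -/

set_option autoImplicit false
set_option linter.unusedSectionVars false

open NumberField

namespace Pool.Agent.Helper503_HW

open Pool.Agent.Y773 (TPos VM cc)
open Pool.Agent.Y772.DK (NN NN_finite cc_mul VM_nonneg VM_pow VM_of_not sum_VM_le)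
open Pool.Agent.Y767 (Mq Mq_cop Mq_ne_bot Mq_cancel Cls cls cls_eq cls_pi cK isUnit_mk
  coprime_of_isUnit)
open Pool.Agent.Y773.IQ (ne_zero_of_cop cop_mono cop_one cop_congr cop_mul absNorm_pos' IM mem_IM cg
  sum_IM sum_cc sum_sq cop_of_norm Fam tM tM_coe card_units_le_norm)
open Pool.Agent.Helper503_UI
open Pool.Agent.Y773.AB (Sys PP mem_PP ev ev_eq card_ker_mul norm_val ms_general nmQ copQ
  max_of_prime VM_of_prime coe_prod ideals_le card_le_fib norm_add_sq_le' Gw Gw_nonneg off_bound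
  pp_bound)

section

variable {K : Type} [Field K] [NumberField K]

/-- the order of the narrow ray class group times the number of the unit classes -/
theorem cls_ku_le {𝔮 : Ideal (𝓞 K)} (hbot : 𝔮 ≠ ⊥) (htop : 𝔮 ≠ ⊤) :
    Nat.card (Cls (pi1 htop)) * ku 𝔮 ≤ Nat.card (𝓞 K ⧸ 𝔮)ˣ * hK K := by
  classical
  have : Finite (𝓞 K ⧸ 𝔮) := Ideal.finiteQuotientOfFreeOfNeBot 𝔮 hbot
  choose 𝔞 h𝔞 using exists_rep hbot htop
  obtain ⟨𝔟, h𝔟⟩ : ∃ 𝔟 : ClassGroup (𝓞 K) → Mq 𝔮, ∀ 𝔠 : Mq 𝔮, cg htop (𝔟 (cg htop 𝔠)) = cg htop 𝔠 := by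
    refine ⟨fun C => if h : ∃ 𝔠 : Mq 𝔮, cg htop 𝔠 = C then h.choose else 1, fun 𝔠 => ?_⟩
    have h : ∃ 𝔠' : Mq 𝔮, cg htop 𝔠' = cg htop 𝔠 := ⟨𝔠, rfl⟩
    simp only [dif_pos h]
    exact h.choose_spec
  choose x' y' hx' hp' hy' hxy using fun c => cg_eq' hbot htop (h𝔟 (𝔞 c)).symm
  -- representatives of the unit classes
  obtain ⟨U, hU⟩ : ∃ U : Set (𝓞 K ⧸ 𝔮), U =
      Set.range (fun u : (𝓞 K)ˣ => Ideal.Quotient.mk 𝔮 (u : 𝓞 K)) := ⟨_, rfl⟩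
  have hUc : Nat.card U = ku 𝔮 := by
    unfold ku
    rw [← hU, Nat.card_coe_set_eq]
  have hr : ∀ g : U, ∃ u : (𝓞 K)ˣ, Ideal.Quotient.mk 𝔮 (u : 𝓞 K) = (g : 𝓞 K ⧸ 𝔮) := by
    rintro ⟨g, hg⟩
    rw [hU] at hg
    exact hg
  choose r hr using hr
  have hspan : ∀ (g : U) (z : 𝓞 K), Ideal.span {(r g : 𝓞 K) * z} = Ideal.span {z} := fun g z =>
    Ideal.span_singleton_mul_left_unit (r g).isUnit z
  have hcop : ∀ (g : U) (c : Cls (pi1 htop)), IsCoprime (Ideal.span {(r g : 𝓞 K) * y' c}) 𝔮 := by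
    intro g c
    rw [hspan]
    exact hy' c
  have hinj : Function.Injective (fun p : Cls (pi1 htop) × U =>
      ((isUnit_mk (hcop p.2 p.1)).unit, cg htop (𝔞 p.1), sgv ((r p.2 : 𝓞 K) * y' p.1))) := by
    rintro ⟨c, g⟩ ⟨c', g'⟩ h
    obtain ⟨h1, h23⟩ := Prod.ext_iff.mp h
    obtain ⟨h2, h3s⟩ := Prod.ext_iff.mp h23
    have h1' : (isUnit_mk (hcop g c)).unit = (isUnit_mk (hcop g' c')).unit := h1
    have h2' : cg htop (𝔞 c) = cg htop (𝔞 c') := h2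
    have h3' : sgv ((r g : 𝓞 K) * y' c) = sgv ((r g' : 𝓞 K) * y' c') := h3s
    have h3 : (r g : 𝓞 K) * y' c - (r g' : 𝓞 K) * y' c' ∈ 𝔮 := by
      rw [← Ideal.Quotient.eq, ← IsUnit.unit_spec (isUnit_mk (hcop g c)), h1', IsUnit.unit_spec]
    have h4 := cls_congr hbot htop (hcop g c) (hcop g' c') h3 h3'
    have h5 : ∀ (g : U) (c : Cls (pi1 htop)),
        cls (pi1 htop) ⟨Ideal.span {(r g : 𝓞 K) * y' c}, hcop g c⟩ =
        cls (pi1 htop) ⟨Ideal.span {y' c}, hy' c⟩ := by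
      intro g c
      congr 1
      exact Subtype.ext (hspan g _)
    rw [h5, h5] at h4
    have hcc : c = c' := by
      rw [← h𝔞 c, ← h𝔞 c', cls_same htop (hx' c) (hp' c) (hy' c) (hxy c),
        cls_same htop (hx' c') (hp' c') (hy' c') (hxy c'), h4, h2']
    subst hcc
    refine Prod.ext rfl (Subtype.ext ?_)
    change (g : 𝓞 K ⧸ 𝔮) = (g' : 𝓞 K ⧸ 𝔮)
    rw [← hr g, ← hr g']
    have h6 := (Ideal.Quotient.eq (I := 𝔮)).mpr h3
    rw [map_mul, map_mul] at h6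
    exact (isUnit_mk (hy' c)).mul_right_cancel h6
  have h7 := Nat.card_le_card_of_injective _ hinj
  rw [Nat.card_prod, Nat.card_prod, Nat.card_prod, hUc] at h7
  unfold hK
  exact h7

/-- the number of the classes in the kernel, times the number of the unit classes -/
theorem ker_ku_le {𝔮 : Ideal (𝓞 K)} (hbot : 𝔮 ≠ ⊥) (htop : 𝔮 ≠ ⊤)
    (H : Subgroup (Cls (pi1 htop) →* ℂˣ)) :
    (Nat.card (ev H).ker * ku 𝔮) * Nat.card H ≤ Ideal.absNorm 𝔮 * hK K := by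
  have := (cls_card_le hbot htop).1
  calc (Nat.card (ev H).ker * ku 𝔮) * Nat.card H = (Nat.card (ev H).ker * Nat.card H) * ku 𝔮 := by
        ring
    _ ≤ Nat.card (Cls (pi1 htop)) * ku 𝔮 := Nat.mul_le_mul_right _ (card_ker_mul H)
    _ ≤ Nat.card (𝓞 K ⧸ 𝔮)ˣ * hK K := cls_ku_le hbot htop
    _ ≤ _ := Nat.mul_le_mul_right _ (card_units_le_norm hbot)

variable (K)

/-- the data of the counting argument -/
theorem sysK : ∃ C : ℝ, 1 ≤ C ∧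
    ∀ (𝔮 : Ideal (𝓞 K)) (_ : 𝔮 ≠ ⊥) (htop : 𝔮 ≠ ⊤) (H : Subgroup (Cls (pi1 htop) →* ℂˣ))
      (Pr : Finset (Mq 𝔮)), (∀ x ∈ Pr, (Ideal.absNorm (x : Ideal (𝓞 K))).Prime) →
      Sys (nmQ 𝔮) ((ev H).comp (cls (pi1 htop))) (copQ 𝔮) Pr C
        ((Nat.card (ev H).ker * ku 𝔮 : ℕ) : ℝ) (Ideal.absNorm 𝔮) := by
  classical
  obtain ⟨C1, hC1, hlat⟩ := cop_count2 K
  obtain ⟨C2, hC2, hid⟩ := ideals_le K
  refine ⟨2 * C1 + C2 + 1, by linarith, fun 𝔮 hbot htop H Pr hPr => ?_⟩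
  have hfc : Finite (Cls (pi1 htop)) := (cls_card_le hbot htop).1
  have hfk : Finite (ev H).ker := inferInstance
  have hk1 : (1 : ℝ) ≤ ((Nat.card (ev H).ker * ku 𝔮 : ℕ) : ℝ) := by
    have h1 : 0 < Nat.card (ev H).ker := Nat.card_pos
    have h2 := ku_pos hbot
    have h3 : 1 ≤ Nat.card (ev H).ker * ku 𝔮 := Nat.mul_pos h1 h2
    exact_mod_cast h3
  have hN1 : (1 : ℝ) ≤ (Ideal.absNorm 𝔮 : ℝ) := by exact_mod_cast absNorm_pos' hbot
  refine ⟨by linarith, hk1, hN1, fun a => absNorm_pos' (Mq_ne_bot htop a), ?_, ?_, ?_, ?_⟩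
  · intro B S hS
    have hku0 : (0 : ℝ) ≤ (ku 𝔮 : ℝ) := Nat.cast_nonneg _
    have hker0 : (0 : ℝ) ≤ (Nat.card (ev H).ker : ℝ) := Nat.cast_nonneg _
    obtain ⟨g, hg⟩ : ∃ g : Mq 𝔮 × Mq 𝔮 → (ev H).ker, ∀ v ∈ S,
        cls (pi1 htop) v.1 = (g v : Cls (pi1 htop)) * cls (pi1 htop) v.2 := by
      have : ∀ v : Mq 𝔮 × Mq 𝔮, ∃ u : (ev H).ker, v ∈ S →
          cls (pi1 htop) v.1 = (u : Cls (pi1 htop)) * cls (pi1 htop) v.2 := by
        intro v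
        by_cases hv : v ∈ S
        · have h3 : ev H (cls (pi1 htop) v.1) = ev H (cls (pi1 htop) v.2) := (hS v hv).1
          refine ⟨⟨cls (pi1 htop) v.1 * (cls (pi1 htop) v.2)⁻¹, ?_⟩, fun _ => ?_⟩
          · rw [MonoidHom.mem_ker, map_mul, map_inv, h3, mul_inv_cancel]
          · change _ = (cls (pi1 htop) v.1 * (cls (pi1 htop) v.2)⁻¹) * _
            rw [inv_mul_cancel_right]
        · exact ⟨1, fun h => absurd h hv⟩
      choose g hg using this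
      exact ⟨g, hg⟩
    have hM1 : (1 : ℝ) ≤ max (B : ℝ) 1 := le_max_right _ _
    have h3 := card_le_fib g S (C1 * ku 𝔮 * (1 + (max (B : ℝ) 1) ^ 2 / Ideal.absNorm 𝔮)) (by
      intro u T hT
      refine hlat 𝔮 hbot htop (max (B : ℝ) 1) hM1 (u : Cls (pi1 htop)) T ?_
      intro v hv
      obtain ⟨h4, h5⟩ := hT v hv
      obtain ⟨-, h6, h7, h8⟩ := hS v h4
      refine ⟨?_, h6, ?_, ?_⟩
      · rw [← h5]; exact hg v h4
      · refine le_trans ?_ (le_max_left _ _)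
        exact_mod_cast h7
      · refine le_trans ?_ (le_max_left _ _)
        exact_mod_cast h8)
    refine h3.trans ?_
    have h10 : 1 + (max (B : ℝ) 1) ^ 2 / (Ideal.absNorm 𝔮 : ℝ) ≤
        2 * (1 + (B : ℝ) ^ 2 / (Ideal.absNorm 𝔮 : ℝ)) := by
      have h11 : (max (B : ℝ) 1) ^ 2 ≤ (B : ℝ) ^ 2 + 1 := by
        rcases le_total (B : ℝ) 1 with h | h
        · rw [max_eq_right h]
          nlinarith [sq_nonneg (B : ℝ)]
        · rw [max_eq_left h]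
          linarith
      have h12 := div_le_div_of_nonneg_right h11 (show (0 : ℝ) ≤ Ideal.absNorm 𝔮 by linarith)
      have h13 : 1 / (Ideal.absNorm 𝔮 : ℝ) ≤ 1 := by
        rw [div_le_one (by linarith)]
        exact hN1
      have h14 : 0 ≤ (B : ℝ) ^ 2 / (Ideal.absNorm 𝔮 : ℝ) := by positivity
      rw [add_div] at h12
      linarith
    have h9 : 0 ≤ ((Nat.card (ev H).ker : ℝ) * ku 𝔮) * (1 + (B : ℝ) ^ 2 / Ideal.absNorm 𝔮) := by
      positivity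
    calc (Nat.card (ev H).ker : ℝ) * (C1 * ku 𝔮 * (1 + (max (B : ℝ) 1) ^ 2 / Ideal.absNorm 𝔮))
        ≤ (Nat.card (ev H).ker : ℝ) * (C1 * ku 𝔮 * (2 * (1 + (B : ℝ) ^ 2 / Ideal.absNorm 𝔮))) := by
          refine mul_le_mul_of_nonneg_left (mul_le_mul_of_nonneg_left h10 ?_) hker0
          positivity
      _ = 2 * C1 * (((Nat.card (ev H).ker : ℝ) * ku 𝔮) * (1 + (B : ℝ) ^ 2 / Ideal.absNorm 𝔮)) := by
          ring
      _ ≤ (2 * C1 + C2 + 1) *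
          (((Nat.card (ev H).ker : ℝ) * ku 𝔮) * (1 + (B : ℝ) ^ 2 / Ideal.absNorm 𝔮)) :=
          mul_le_mul_of_nonneg_right (by linarith) h9
      _ = _ := by push_cast; ring
  · intro A S hS
    have hinj : Set.InjOn (fun x : Mq 𝔮 => (x : Ideal (𝓞 K))) S := fun x _ y _ h =>
      Subtype.ext h
    rw [← Finset.card_image_of_injOn hinj]
    refine (hid A _ (Nat.cast_nonneg _) ?_).trans ?_
    · intro 𝔞 h𝔞
      obtain ⟨x, hx, rfl⟩ := Finset.mem_image.mp h𝔞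
      refine ⟨Mq_ne_bot htop x, ?_⟩
      have := hS x hx
      exact_mod_cast this
    · have : (0 : ℝ) ≤ A := Nat.cast_nonneg _
      nlinarith
  · intro j f g hf hg hne
    unfold copQ
    rw [coe_prod, coe_prod]
    refine IsCoprime.prod_left fun i _ => IsCoprime.prod_right fun k _ => ?_
    have h3 := (max_of_prime (hPr _ (hf i))).1
    have h4 := (max_of_prime (hPr _ (hg k))).1
    rw [Ideal.isCoprime_iff_sup_eq]
    exact h3.coprime_of_ne h4 (fun h => hne i k (Subtype.ext h))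
  · intro j a f ha hf hdvd
    obtain ⟨c, hc⟩ := hdvd
    obtain ⟨h3, h4⟩ := max_of_prime (hPr _ ha)
    have h5 : (a : Ideal (𝓞 K)) ∣ ∏ i, (f i : Ideal (𝓞 K)) := by
      rw [← coe_prod, hc, Submonoid.coe_mul]
      exact dvd_mul_right _ _
    obtain ⟨k, -, hk⟩ := (Prime.dvd_finsetProd_iff (Ideal.prime_of_isPrime h4 h3.isPrime) _).1 h5
    refine ⟨k, Subtype.ext ?_⟩
    have h6 := (max_of_prime (hPr _ (hf k))).1
    exact (h6.eq_of_le h3.ne_top (Ideal.dvd_iff_le.mp hk)).symm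

variable {K}

/-- the contribution of the ideals whose norm is not a prime `≥ 3` -/
theorem rest_le {Cp : ℝ} (hpp : ∀ (u : ℝ) (N : ℕ),
      ∑ n ∈ (Finset.Icc 1 N).filter (fun n => ¬ n.Prime), Gw u n ≤ Cp)
    (M : ℕ) (u w : ℝ) (hw : 0 ≤ w) (b : ℕ → ℂ)
    (hb : ∀ n, ArithmeticFunction.vonMangoldt n * ‖b n‖ ≤ w * Gw u n) :
    ∑ 𝔞 ∈ IM K M, (open Classical in if (Ideal.absNorm 𝔞).Prime ∧ 3 ≤ Ideal.absNorm 𝔞 then 0 else
      ‖b (Ideal.absNorm 𝔞) * (VM 𝔞 : ℂ)‖) ≤ (Module.finrank ℚ K : ℝ) * (Cp + 1) * w := by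
  classical
  obtain ⟨n, hn⟩ : ∃ n : ℝ, n = (Module.finrank ℚ K : ℝ) := ⟨_, rfl⟩
  have hn0 : 0 ≤ n := by rw [hn]; exact Nat.cast_nonneg _
  rw [← hn, sum_IM]
  have h1 : ∀ m ∈ Finset.Icc 1 M, ∑ 𝔞 ∈ (NN_finite (K := K) m).toFinset,
      (if (Ideal.absNorm 𝔞).Prime ∧ 3 ≤ Ideal.absNorm 𝔞 then 0 else
      ‖b (Ideal.absNorm 𝔞) * (VM 𝔞 : ℂ)‖) ≤ n * w * (if m.Prime then 0 else Gw u m) +
        n * w * (if m = 2 then 1 else 0) := by
    intro m hm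
    have h2 : ∀ 𝔞 ∈ (NN_finite (K := K) m).toFinset,
      (if (Ideal.absNorm 𝔞).Prime ∧ 3 ≤ Ideal.absNorm 𝔞 then 0 else
      ‖b (Ideal.absNorm 𝔞) * (VM 𝔞 : ℂ)‖) = if m.Prime ∧ 3 ≤ m then 0 else ‖b m‖ * VM 𝔞 := by
      intro 𝔞 h𝔞
      have h3 : Ideal.absNorm 𝔞 = m := Pool.Agent.Y773.IQ.mem_NN h𝔞
      rw [h3, norm_mul, Complex.norm_real, Real.norm_of_nonneg (VM_nonneg 𝔞)]
    rw [Finset.sum_congr rfl h2]
    by_cases hc : m.Prime ∧ 3 ≤ m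
    · simp only [if_pos hc, if_pos hc.1, Finset.sum_const_zero]
      have : m ≠ 2 := by have := hc.2; omega
      rw [if_neg this]
      norm_num
    · simp only [if_neg hc]
      rw [← Finset.mul_sum]
      have h4 : ∑ 𝔞 ∈ (NN_finite (K := K) m).toFinset, VM 𝔞 ≤
          n * ArithmeticFunction.vonMangoldt m := by
        have := sum_VM_le (K := K) m
        rw [finsum_mem_eq_finite_toFinset_sum _ (NN_finite m), ← hn] at this
        exact this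
      have h5 : ‖b m‖ * ∑ 𝔞 ∈ (NN_finite (K := K) m).toFinset, VM 𝔞 ≤ n * (w * Gw u m) := by
        calc _ ≤ ‖b m‖ * (n * ArithmeticFunction.vonMangoldt m) :=
              mul_le_mul_of_nonneg_left h4 (norm_nonneg _)
          _ = n * (ArithmeticFunction.vonMangoldt m * ‖b m‖) := by ring
          _ ≤ _ := mul_le_mul_of_nonneg_left (hb m) hn0
      by_cases hp : m.Prime
      · have hm2 : m = 2 := by
          have h6 := hp.two_le
          by_contra h7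
          exact hc ⟨hp, by omega⟩
        rw [if_pos hp, if_pos hm2]
        have h7 : Gw u m ≤ 1 := by
          rw [hm2]
          unfold Gw
          have e1 : Real.exp (-(u - Real.log ((2 : ℕ) : ℝ)) ^ 2 / 4) ≤ 1 := by
            rw [Real.exp_le_one_iff]
            exact div_nonpos_of_nonpos_of_nonneg (neg_nonpos.mpr (sq_nonneg _)) (by norm_num)
          have e2 : ArithmeticFunction.vonMangoldt 2 / Real.sqrt ((2 : ℕ) : ℝ) ≤ 1 := by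
            rw [div_le_one (by positivity), ArithmeticFunction.vonMangoldt_apply_prime
              Nat.prime_two]
            have e3 : Real.log ((2 : ℕ) : ℝ) ≤ 1 := by
              push_cast
              linarith [Real.log_two_lt_d9]
            have e4 : (1 : ℝ) ≤ Real.sqrt ((2 : ℕ) : ℝ) := by
              rw [Real.one_le_sqrt]; norm_num
            linarith
          have e5 : 0 ≤ ArithmeticFunction.vonMangoldt 2 / Real.sqrt ((2 : ℕ) : ℝ) :=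
            div_nonneg ArithmeticFunction.vonMangoldt_nonneg (Real.sqrt_nonneg _)
          calc _ ≤ (1 : ℝ) * 1 := mul_le_mul e2 e1 (Real.exp_pos _).le zero_le_one
            _ = 1 := one_mul 1
        have h8 := mul_le_mul_of_nonneg_left h7 (mul_nonneg hn0 hw)
        linarith
      · rw [if_neg hp]
        have h9 : 0 ≤ n * w * (if m = 2 then (1 : ℝ) else 0) := by positivity
        linarith
  refine (Finset.sum_le_sum h1).trans ?_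
  rw [Finset.sum_add_distrib, ← Finset.mul_sum, ← Finset.mul_sum]
  have h2 : ∑ m ∈ Finset.Icc 1 M, (if m.Prime then 0 else Gw u m) ≤ Cp := by
    have h3 : ∑ m ∈ Finset.Icc 1 M, (if m.Prime then 0 else Gw u m) =
        ∑ n ∈ (Finset.Icc 1 M).filter (fun n => ¬ n.Prime), Gw u n := by
      rw [Finset.sum_filter]
      refine Finset.sum_congr rfl fun m _ => ?_
      by_cases hp : m.Prime
      · rw [if_pos hp, if_neg (not_not.mpr hp)]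
      · rw [if_neg hp, if_pos hp]
    rw [h3]
    exact hpp u M
  have h3 : ∑ m ∈ Finset.Icc 1 M, (if m = 2 then (1 : ℝ) else 0) ≤ 1 := by
    rw [Finset.sum_ite_eq']
    split_ifs <;> norm_num
  have h4 := mul_le_mul_of_nonneg_left h2 (mul_nonneg hn0 hw)
  have h5 := mul_le_mul_of_nonneg_left h3 (mul_nonneg hn0 hw)
  linarith

variable (K)

/-- **the large sieve for a thin family** -/
theorem ls_thinK (θ θ' : ℝ) (h0 : 0 < θ) (h1 : θ < θ') (h3 : θ' ≤ 1 / 3) :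
    ∃ c C2 : ℝ, 0 < c ∧ 0 < C2 ∧ ∀ ε : ℝ, 0 < ε → ∃ Ce : ℝ, 0 < Ce ∧
    ∀ (𝔮 : Ideal (𝓞 K)) (_ : 𝔮 ≠ ⊥) (htop : 𝔮 ≠ ⊤) (H : Subgroup (Cls (pi1 htop) →* ℂˣ))
      (_ : ((Nat.card (ev H).ker * ku 𝔮 : ℕ) : ℝ) ≤ (Ideal.absNorm 𝔮 : ℝ) ^ θ)
      (Y : Finset (Ideal (𝓞 K) →*₀ ℂ))
      (_ : ∀ ψ ∈ Y, ψ ∈ Fam 𝔮 ∧ ∃ F ∈ H, tM 𝔮 ψ = F.comp (cls (pi1 htop)))
      (M : ℕ) (_ : (M : ℝ) ≤ (Ideal.absNorm 𝔮 : ℝ) ^ (1 - θ')) (u w : ℝ) (_ : 0 ≤ u) (_ : 0 ≤ w)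
      (b : ℕ → ℂ) (_ : ∀ n, ArithmeticFunction.vonMangoldt n * ‖b n‖ ≤ w * Gw u n)
      (δ : ℝ) (_ : 0 < δ),
    ∑ ψ ∈ Y, ‖∑ m ∈ Finset.Icc 1 M, b m * (if Nat.Coprime m (Ideal.absNorm 𝔮) then
      cc ψ m * (ArithmeticFunction.vonMangoldt m : ℂ) else 0)‖ ^ 2 ≤
      (1 + δ) * (Nat.card H * (∑ m ∈ Finset.Icc 1 M,
          ‖b m‖ ^ 2 * (ArithmeticFunction.vonMangoldt m * ‖cK K m‖) ^ 2 +
        w ^ 2 * (Ce + ε * (1 + Real.log (Ideal.absNorm 𝔮)) ^ 2 * Real.exp (-(c * u))))) +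
      (1 + 1 / δ) * (Y.card * (C2 * w ^ 2)) := by
  classical
  obtain ⟨C0, hC0, hsys⟩ := sysK K
  obtain ⟨c, hc, hoff⟩ := off_bound C0 hC0 θ θ' h0 h1 h3
  obtain ⟨Cp, hCp, hpp⟩ := pp_bound
  obtain ⟨n, hn⟩ : ∃ n : ℝ, n = (Module.finrank ℚ K : ℝ) := ⟨_, rfl⟩
  have hn0 : 0 < n := by
    have := Module.finrank_pos (R := ℚ) (M := K)
    rw [hn]; exact_mod_cast this
  refine ⟨c, (n * (Cp + 1)) ^ 2, hc, by positivity, fun ε hε => ?_⟩
  obtain ⟨Ce, hCe, hoff⟩ := hoff ε hε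
  refine ⟨Ce, hCe, ?_⟩
  intro 𝔮 hbot htop H hV Y hY M hM u w hu hw b hb δ hδ
  have hfc : Finite (Cls (pi1 htop)) := (cls_card_le hbot htop).1
  have hfd := Pool.Agent.Y767.finite_dual (Cls (pi1 htop))
  have hfH : Finite H := inferInstance
  let _ : Fintype H := Fintype.ofFinite H
  obtain ⟨b', hb'⟩ : ∃ b' : ℕ → ℂ, ∀ m, b' m = if Nat.Coprime m (Ideal.absNorm 𝔮) then b m else 0 :=
    ⟨_, fun _ => rfl⟩
  have hbb' : ∀ m, ‖b' m‖ ≤ ‖b m‖ := by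
    intro m
    rw [hb']
    split_ifs
    · exact le_rfl
    · rw [norm_zero]; exact norm_nonneg _
  set S : Finset (Mq 𝔮) := (IM K M).subtype (fun 𝔞 => 𝔞 ∈ Mq 𝔮) with hS
  set a : Mq 𝔮 → ℂ := fun x => b' (Ideal.absNorm (x : Ideal (𝓞 K))) * (VM (x : Ideal (𝓞 K)) : ℂ)
    with ha
  set P : Ideal (𝓞 K) → Prop := fun 𝔞 => (Ideal.absNorm 𝔞).Prime ∧ 3 ≤ Ideal.absNorm 𝔞 with hP
  set Sp : Finset (Mq 𝔮) := S.filter (fun x : Mq 𝔮 => P (x : Ideal (𝓞 K))) with hSp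
  have hψ1 : ∀ ψ ∈ Y, ∀ x : Mq 𝔮, ∃ F ∈ H, tM 𝔮 ψ = F.comp (cls (pi1 htop)) ∧
      ψ (x : Ideal (𝓞 K)) = ((F (cls (pi1 htop) x) : ℂˣ) : ℂ) := by
    intro ψ hψ x
    obtain ⟨h4, F, hF, h5⟩ := hY ψ hψ
    refine ⟨F, hF, h5, ?_⟩
    rw [← tM_coe htop h4 x, h5]
    rfl
  have hnorm : ∀ ψ ∈ Y, ∀ x : Mq 𝔮, ‖ψ (x : Ideal (𝓞 K))‖ = 1 := by
    intro ψ hψ x
    obtain ⟨F, -, -, h4⟩ := hψ1 ψ hψ x
    rw [h4]
    exact norm_val F _
  -- the sums over the monoid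
  have hsum : ∀ ψ ∈ Y, ∑ m ∈ Finset.Icc 1 M, b m * (if Nat.Coprime m (Ideal.absNorm 𝔮) then
      cc ψ m * (ArithmeticFunction.vonMangoldt m : ℂ) else 0) =
      ∑ x ∈ S, a x * ψ (x : Ideal (𝓞 K)) := by
    intro ψ hψ
    have h4 : ∑ x ∈ S, a x * ψ (x : Ideal (𝓞 K)) = ∑ x ∈ S,
        (fun 𝔞 : Ideal (𝓞 K) => (b' (Ideal.absNorm 𝔞) * (VM 𝔞 : ℂ)) * ψ 𝔞)
          (x : Ideal (𝓞 K)) := rfl
    rw [h4]
    refine Eq.trans ?_ (Finset.sum_subtype_eq_sum_filter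
      (fun 𝔞 : Ideal (𝓞 K) => (b' (Ideal.absNorm 𝔞) * (VM 𝔞 : ℂ)) * ψ 𝔞)).symm
    rw [Finset.sum_filter_of_ne, ← sum_cc]
    · refine Finset.sum_congr rfl fun m _ => ?_
      rw [hb']
      split_ifs <;> simp
    · intro 𝔞 _ hne
      apply cop_of_norm
      by_contra hcon
      apply hne
      rw [hb', if_neg hcon]
      ring
  have hrest : ∑ x ∈ S.filter (fun x : Mq 𝔮 => ¬ P (x : Ideal (𝓞 K))), ‖a x‖ ≤ n * (Cp + 1) * w := by
    have h4 : ∑ x ∈ S.filter (fun x : Mq 𝔮 => ¬ P (x : Ideal (𝓞 K))), ‖a x‖ = ∑ x ∈ S,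
        (fun 𝔞 : Ideal (𝓞 K) => if P 𝔞 then 0 else ‖b' (Ideal.absNorm 𝔞) * (VM 𝔞 : ℂ)‖)
          (x : Ideal (𝓞 K)) := by
      rw [Finset.sum_filter]
      refine Finset.sum_congr rfl fun x _ => ?_
      by_cases hx : P (x : Ideal (𝓞 K))
      · simp only [hx, not_true_eq_false, if_false, if_true]
      · simp only [hx, not_false_eq_true, if_true, if_false]
        rfl
    rw [h4, Finset.sum_subtype_eq_sum_filter
      (fun 𝔞 : Ideal (𝓞 K) => if P 𝔞 then 0 else ‖b' (Ideal.absNorm 𝔞) * (VM 𝔞 : ℂ)‖)]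
    refine (Finset.sum_le_sum_of_subset_of_nonneg (Finset.filter_subset _ _) ?_).trans ?_
    · intro 𝔞 _ _
      split_ifs
      · exact le_rfl
      · exact norm_nonneg _
    · have h5 := rest_le (K := K) hpp M u w hw b' (fun n => by
        refine le_trans ?_ (hb n)
        exact mul_le_mul_of_nonneg_left (hbb' n) ArithmeticFunction.vonMangoldt_nonneg)
      rw [← hn] at h5
      refine le_trans (le_of_eq ?_) h5
      refine Finset.sum_congr rfl fun 𝔞 _ => ?_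
      congr
  have hsplit : ∀ ψ ∈ Y, ‖∑ m ∈ Finset.Icc 1 M, b m * (if Nat.Coprime m (Ideal.absNorm 𝔮) then
      cc ψ m * (ArithmeticFunction.vonMangoldt m : ℂ) else 0)‖ ^ 2 ≤
      (1 + δ) * ‖∑ x ∈ Sp, a x * ψ (x : Ideal (𝓞 K))‖ ^ 2 +
        (1 + 1 / δ) * ((n * (Cp + 1)) ^ 2 * w ^ 2) := by
    intro ψ hψ
    rw [hsum ψ hψ, ← Finset.sum_filter_add_sum_filter_not S (fun x : Mq 𝔮 => P (x : Ideal (𝓞 K)))]
    refine (norm_add_sq_le' _ _ hδ).trans ?_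
    refine add_le_add le_rfl (mul_le_mul_of_nonneg_left ?_ (by positivity))
    have h4 : ‖∑ x ∈ S.filter (fun x : Mq 𝔮 => ¬ P (x : Ideal (𝓞 K))), a x * ψ (x : Ideal (𝓞 K))‖ ≤
        n * (Cp + 1) * w := by
      refine (norm_sum_le _ _).trans (le_trans (le_of_eq ?_) hrest)
      refine Finset.sum_congr rfl fun x _ => ?_
      rw [norm_mul, hnorm ψ hψ x, mul_one]
    calc _ ≤ (n * (Cp + 1) * w) ^ 2 := pow_le_pow_left₀ (norm_nonneg _) h4 2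
      _ = _ := by ring
  refine (Finset.sum_le_sum hsplit).trans ?_
  rw [Finset.sum_add_distrib, ← Finset.mul_sum, Finset.sum_const, nsmul_eq_mul]
  have hlast : (Y.card : ℝ) * ((1 + 1 / δ) * ((n * (Cp + 1)) ^ 2 * w ^ 2)) =
      (1 + 1 / δ) * (Y.card * ((n * (Cp + 1)) ^ 2 * w ^ 2)) := by ring
  rw [hlast]
  refine add_le_add (mul_le_mul_of_nonneg_left ?_ (by positivity)) le_rfl
  -- from `Y` to `H`
  have hF : ∀ ψ : Ideal (𝓞 K) →*₀ ℂ, ∃ F : H, ψ ∈ Y → tM 𝔮 ψ =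
      (F : Cls (pi1 htop) →* ℂˣ).comp (cls (pi1 htop)) := by
    intro ψ
    by_cases hψ : ψ ∈ Y
    · obtain ⟨-, F, hF, h5⟩ := hY ψ hψ
      exact ⟨⟨F, hF⟩, fun _ => h5⟩
    · exact ⟨1, fun h => absurd h hψ⟩
  choose f hf using hF
  have hinj : Set.InjOn f Y := by
    intro ψ hψ ψ' hψ' h
    rw [Finset.mem_coe] at hψ hψ'
    apply tM_inj hbot htop (hY ψ hψ).1 (hY ψ' hψ').1
    rw [hf ψ hψ, hf ψ' hψ', h]
  have h4 : ∑ ψ ∈ Y, ‖∑ x ∈ Sp, a x * ψ (x : Ideal (𝓞 K))‖ ^ 2 ≤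
      ∑ F : H, ‖∑ x ∈ Sp, a x * (((F : Cls (pi1 htop) →* ℂˣ) (cls (pi1 htop) x) : ℂˣ) : ℂ)‖ ^ 2 := by
    have h5 : ∑ ψ ∈ Y, ‖∑ x ∈ Sp, a x * ψ (x : Ideal (𝓞 K))‖ ^ 2 =
        ∑ F ∈ Y.image f, ‖∑ x ∈ Sp, a x *
          (((F : Cls (pi1 htop) →* ℂˣ) (cls (pi1 htop) x) : ℂˣ) : ℂ)‖ ^ 2 := by
      rw [Finset.sum_image hinj]
      refine Finset.sum_congr rfl fun ψ hψ => ?_
      congr 2
      refine Finset.sum_congr rfl fun x _ => ?_
      rw [← tM_coe htop (hY ψ hψ).1 x, hf ψ hψ]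
      rfl
    rw [h5]
    exact Finset.sum_le_sum_of_subset_of_nonneg (Finset.subset_univ _) fun _ _ _ => sq_nonneg _
  refine h4.trans ((ms_general (cls (pi1 htop)) H Sp a).trans ?_)
  rw [Nat.card_eq_fintype_card]
  refine mul_le_mul_of_nonneg_left (add_le_add ?_ ?_) (Nat.cast_nonneg _)
  · calc ∑ x ∈ Sp, ‖a x‖ ^ 2 ≤ ∑ x ∈ S, ‖a x‖ ^ 2 :=
          Finset.sum_le_sum_of_subset_of_nonneg (Finset.filter_subset _ _)
            (fun _ _ _ => sq_nonneg _)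
      _ = ∑ 𝔞 ∈ (IM K M).filter (fun 𝔞 => 𝔞 ∈ Mq 𝔮),
          ‖b' (Ideal.absNorm 𝔞) * (VM 𝔞 : ℂ)‖ ^ 2 := by
        rw [hS]
        exact Finset.sum_subtype_eq_sum_filter
          (fun 𝔞 : Ideal (𝓞 K) => ‖b' (Ideal.absNorm 𝔞) * (VM 𝔞 : ℂ)‖ ^ 2)
      _ ≤ ∑ 𝔞 ∈ IM K M, ‖b' (Ideal.absNorm 𝔞) * (VM 𝔞 : ℂ)‖ ^ 2 :=
        Finset.sum_le_sum_of_subset_of_nonneg (Finset.filter_subset _ _)
          (fun _ _ _ => sq_nonneg _)
      _ ≤ ∑ m ∈ Finset.Icc 1 M, ‖b' m‖ ^ 2 * (ArithmeticFunction.vonMangoldt m * ‖cK K m‖) ^ 2 :=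
        sum_sq M b'
      _ ≤ _ := by
        refine Finset.sum_le_sum fun m _ => mul_le_mul_of_nonneg_right ?_ (sq_nonneg _)
        exact pow_le_pow_left₀ (norm_nonneg _) (hbb' m) 2
  · have hs := hsys 𝔮 hbot htop H Sp (fun x hx => (Finset.mem_filter.mp hx).2.1)
    have h5 := hoff hs hV M hM (fun x hx => by
      obtain ⟨h6, h7⟩ := Finset.mem_filter.mp hx
      exact ⟨h7.2, (mem_IM (Finset.mem_subtype.mp h6)).2⟩) u hu
    have h6 : ∀ x ∈ Sp, ‖a x‖ ≤ w * Gw u (nmQ 𝔮 x) := by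
      intro x hx
      obtain ⟨h6, h7⟩ := Finset.mem_filter.mp hx
      rw [ha]
      simp only
      rw [norm_mul, Complex.norm_real, Real.norm_of_nonneg (VM_nonneg _), VM_of_prime h7.1]
      refine le_trans ?_ (hb _)
      rw [mul_comm]
      exact mul_le_mul_of_nonneg_left (hbb' _) ArithmeticFunction.vonMangoldt_nonneg
    calc _ ≤ ∑ p ∈ PP ((ev H).comp (cls (pi1 htop))) Sp,
          w ^ 2 * (Gw u (nmQ 𝔮 p.1) * Gw u (nmQ 𝔮 p.2)) := by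
          refine Finset.sum_le_sum fun p hp => ?_
          obtain ⟨h7, h8, -, -⟩ := mem_PP.mp hp
          calc _ ≤ (w * Gw u (nmQ 𝔮 p.1)) * (w * Gw u (nmQ 𝔮 p.2)) :=
                mul_le_mul (h6 _ h7) (h6 _ h8) (norm_nonneg _)
                  (mul_nonneg hw (Gw_nonneg _ _))
            _ = _ := by ring
      _ = w ^ 2 * ∑ p ∈ PP ((ev H).comp (cls (pi1 htop))) Sp,
          (Gw u (nmQ 𝔮 p.1) * Gw u (nmQ 𝔮 p.2)) := by rw [Finset.mul_sum]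
      _ ≤ _ := mul_le_mul_of_nonneg_left h5 (sq_nonneg _)

end

end Pool.Agent.Helper503_HW
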