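import Pool.Agent.Helper503_HW.ArtK
import Pool.Agent.Y773.AB.Hfn

/-!
# The characters of the narrow class group, and the L-functions of all the characters

Adapted from `Pool.Agent.Y773.AB.Chr` and `Pool.Agent.Y773.AB.Hfn`, where the field is imaginary
quadratic.
-/

set_option autoImplicit false
set_option linter.unusedSectionVars false

open NumberField Filter Topology MeasureTheory

namespace Pool.Agent.Helper503_HW

open Pool.Agent.Y773 (TPos LI cc)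
open Pool.Agent.Y767 (Mq Mq_cop Mq_ne_bot Cls cls cls_pi cK card_dual finite_dual eq_of_LI ext_mon
  tpos_one tpos_mul tpos_of_mul)
open Pool.Agent.Y773.IQ (absNorm_pos' Fam tM tM_coe cd cd_spec LL LL_eq good ne_zero_of_cop
  ofM' ofM'_pos ofM'_supp cop_mono cop_one cop_congr)
open Pool.Agent.Helper503_UI
open Pool.Agent.Y773.AB (res res_cop res_not norm_res_le LI_res Ef Ef_ne Ef_diff zcount_crude
  Rad cop_of_rad etc etc_cop etc_not etc_res m0 m0_top m0_bot count_congr order_mul_ne)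
open Pool.Agent.Y773
open H370 (zset NN Ns Nd mult)

section

variable {K : Type} [Field K] [NumberField K]

/-- the characters of the narrow class group -/
def UnS (K : Type) [Field K] [NumberField K] : Set (Ideal (𝓞 K) →*₀ ℂ) :=
  {ψ | (∀ 𝔞 : Ideal (𝓞 K), 𝔞 ≠ ⊥ → ψ 𝔞 ≠ 0) ∧
    ∀ x : 𝓞 K, x ≠ 0 → TPos K x → ψ (Ideal.span {x}) = 1}

lemma UnS_norm {ψ : Ideal (𝓞 K) →*₀ ℂ} (h : ψ ∈ UnS K) (𝔞 : Ideal (𝓞 K)) : ‖ψ 𝔞‖ ≤ 1 := by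
  by_cases h0 : 𝔞 = ⊥
  · rw [h0, ← Ideal.zero_eq_bot, map_zero, norm_zero]; exact zero_le_one
  have hc : Finite (ClassGroup (𝓞 K)) := inferInstance
  obtain ⟨m, hm⟩ : ∃ m : ℕ, m = Nat.card (ClassGroup (𝓞 K)) := ⟨_, rfl⟩
  have hm0 : 0 < m := by rw [hm]; exact Nat.card_pos
  have h1 : ClassGroup.mk0 ((⟨𝔞, mem_nonZeroDivisors_iff_ne_zero.mpr h0⟩ :
      nonZeroDivisors (Ideal (𝓞 K))) ^ m) = 1 := by
    rw [map_pow, hm, pow_card_eq_one']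
  rw [ClassGroup.mk0_eq_one_iff] at h1
  obtain ⟨x, hx⟩ := h1
  have h2 : 𝔞 ^ m = Ideal.span {x} := hx
  have hx0 : x ≠ 0 := by
    rintro rfl
    rw [Ideal.span_singleton_eq_bot.mpr rfl] at h2
    exact pow_ne_zero m h0 h2
  have h3 : ψ (Ideal.span {x * x}) = 1 :=
    h.2 (x * x) (mul_ne_zero hx0 hx0) (tpos_of_sgv hx0 hx0 rfl)
  rw [← Ideal.span_singleton_mul_span_singleton, ← h2, map_mul, map_pow, ← pow_add] at h3
  exact (Complex.norm_eq_one_of_pow_eq_one h3 (by omega)).le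

/-- the restriction to the ideals prime to `𝔮` -/
noncomputable def toU (𝔮 : Ideal (𝓞 K)) (htop : 𝔮 ≠ ⊤) (ψ : UnS K) : Mq 𝔮 →* ℂˣ where
  toFun x := Units.mk0 ((ψ : Ideal (𝓞 K) →*₀ ℂ) (x : Ideal (𝓞 K))) (ψ.2.1 _ (Mq_ne_bot htop x))
  map_one' := by
    ext
    rw [Units.val_mk0, Submonoid.coe_one, map_one, Units.val_one]
  map_mul' x y := by
    ext
    rw [Units.val_mk0, Submonoid.coe_mul, map_mul, Units.val_mul, Units.val_mk0, Units.val_mk0]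

lemma toU_mem {𝔮 : Ideal (𝓞 K)} (htop : 𝔮 ≠ ⊤) (ψ : UnS K) : toU 𝔮 htop ψ ∈ D0 𝔮 := by
  intro x hx hx0
  ext
  change (ψ : Ideal (𝓞 K) →*₀ ℂ) (Ideal.span {x}) = ((1 : ℂˣ) : ℂ)
  rw [ψ.2.2 x (ne_zero_of_cop htop hx) hx0, Units.val_one]

lemma UnS_eq {𝔮 : Ideal (𝓞 K)} (hbot : 𝔮 ≠ ⊥) (htop : 𝔮 ≠ ⊤) {ψ ψ' : Ideal (𝓞 K) →*₀ ℂ}
    (h : ψ ∈ UnS K) (h' : ψ' ∈ UnS K) (he : ∀ x : Mq 𝔮, ψ x = ψ' x) : ψ = ψ' := by
  ext 𝔠
  by_cases h0 : 𝔠 = ⊥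
  · rw [h0, ← Ideal.zero_eq_bot, map_zero, map_zero]
  obtain ⟨y, 𝔟, -, hy0, hy, hb⟩ := moving_pos (𝔠 := 𝔠) (𝔣 := ⊤) (𝔮 := 𝔮) le_top hbot h0
    (by rw [Ideal.isCoprime_iff_sup_eq]; exact sup_top_eq _)
  have h𝔟 : 𝔟 ≠ ⊥ := Mq_ne_bot htop ⟨𝔟, hb⟩
  have hyne : y ≠ 0 := by
    rintro rfl
    rw [Ideal.span_singleton_eq_bot.mpr rfl] at hy
    exact mul_ne_zero h0 h𝔟 hy.symm
  have h1 := h.2 y hyne hy0
  have h2 := h'.2 y hyne hy0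
  rw [hy, map_mul] at h1 h2
  rw [← he ⟨𝔟, hb⟩] at h2
  exact mul_right_cancel₀ (h.1 𝔟 h𝔟) (h1.trans h2.symm)

lemma toU_inj {𝔮 : Ideal (𝓞 K)} (hbot : 𝔮 ≠ ⊥) (htop : 𝔮 ≠ ⊤) :
    Function.Injective (toU (K := K) 𝔮 htop) := by
  intro ψ ψ' h
  apply Subtype.ext
  refine UnS_eq hbot htop ψ.2 ψ'.2 fun x => ?_
  have h1 := DFunLike.congr_fun h x
  have h2 := congrArg (fun u : ℂˣ => (u : ℂ)) h1
  exact h2

lemma UnS_finite : Finite (UnS K) ∧ Nat.card (UnS K) ≤ hK K := by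
  have hD := (D1_card (K := K) m0_bot m0_top).1.subset (D0_sub m0_top)
  have hfin : Finite (D0 (m0 K)) := hD
  have hinj : Function.Injective (fun ψ : UnS K =>
      (⟨toU (m0 K) m0_top ψ, toU_mem m0_top ψ⟩ : D0 (m0 K))) := by
    intro ψ ψ' h
    exact toU_inj m0_bot m0_top (congrArg Subtype.val h)
  refine ⟨Finite.of_injective _ hinj, ?_⟩
  refine (Nat.card_le_card_of_injective _ hinj).trans ?_
  rw [Nat.card_coe_set_eq]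
  exact D0_card m0_bot m0_top

/-- the totally positive elements -/
def Tp (K : Type) [Field K] [NumberField K] : Submonoid (𝓞 K) where
  carrier := {x | x ≠ 0 ∧ TPos K x}
  mul_mem' hx hy := ⟨mul_ne_zero hx.1 hy.1, tpos_mul hx.2 hy.2⟩
  one_mem' := ⟨one_ne_zero, tpos_one⟩

/-- the map `(𝔞, x) ↦ 𝔞 (x)` -/
noncomputable def pi3 {𝔮 : Ideal (𝓞 K)} (htop : 𝔮 ≠ ⊤) :
    (Mq 𝔮 × Tp K) →* nonZeroDivisors (Ideal (𝓞 K)) where
  toFun p := ⟨(p.1 : Ideal (𝓞 K)) * Ideal.span {(p.2 : 𝓞 K)}, mem_nonZeroDivisors_iff_ne_zero.mpr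
    (mul_ne_zero (Mq_ne_bot htop p.1) (by
      rw [Ne, Ideal.zero_eq_bot, Ideal.span_singleton_eq_bot]
      exact p.2.2.1))⟩
  map_one' := by
    apply Subtype.ext
    change ((1 : Mq 𝔮) : Ideal (𝓞 K)) * Ideal.span {(((1 : Tp K) : Tp K) : 𝓞 K)} = 1
    rw [Submonoid.coe_one, Submonoid.coe_one, Ideal.span_singleton_one, one_mul, Ideal.one_eq_top]
  map_mul' p q := by
    apply Subtype.ext
    change ((p.1 * q.1 : Mq 𝔮) : Ideal (𝓞 K)) * Ideal.span {((p.2 * q.2 : Tp K) : 𝓞 K)} =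
      ((p.1 : Ideal (𝓞 K)) * Ideal.span {(p.2 : 𝓞 K)}) *
      ((q.1 : Ideal (𝓞 K)) * Ideal.span {(q.2 : 𝓞 K)})
    rw [Submonoid.coe_mul, Submonoid.coe_mul, ← Ideal.span_singleton_mul_span_singleton]
    ring

lemma pi3_coe {𝔮 : Ideal (𝓞 K)} (htop : 𝔮 ≠ ⊤) (p : Mq 𝔮 × Tp K) :
    ((pi3 htop p : nonZeroDivisors (Ideal (𝓞 K))) : Ideal (𝓞 K)) =
      (p.1 : Ideal (𝓞 K)) * Ideal.span {(p.2 : 𝓞 K)} := rfl

/-- two ideals prime to `𝔮` in the same narrow class -/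
lemma same_class_pos {𝔮 : Ideal (𝓞 K)} (hbot : 𝔮 ≠ ⊥) (htop : 𝔮 ≠ ⊤) {𝔞 𝔟 : Mq 𝔮} {x y : 𝓞 K}
    (hx : x ≠ 0) (hxp : TPos K x) (hyp : TPos K y)
    (h : (𝔞 : Ideal (𝓞 K)) * Ideal.span {x} = (𝔟 : Ideal (𝓞 K)) * Ideal.span {y}) :
    ∃ (x' y' : 𝓞 K) (_ : x' - 1 ∈ 𝔮) (_ : TPos K x') (_ : IsCoprime (Ideal.span {y'}) 𝔮)
      (_ : TPos K y'),
      Ideal.span {x'} * (𝔞 : Ideal (𝓞 K)) = Ideal.span {y'} * (𝔟 : Ideal (𝓞 K)) := by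
  obtain ⟨x', 𝔠, h1, h0, h2, -⟩ := exists_compl hbot htop 𝔟
  have h3 : Ideal.span {x} * ((𝔞 : Ideal (𝓞 K)) * 𝔠) = Ideal.span {y * x'} := by
    calc Ideal.span {x} * ((𝔞 : Ideal (𝓞 K)) * 𝔠) = ((𝔞 : Ideal (𝓞 K)) * Ideal.span {x}) * 𝔠 := by
          ring
      _ = ((𝔟 : Ideal (𝓞 K)) * Ideal.span {y}) * 𝔠 := by rw [h]
      _ = Ideal.span {y} * ((𝔟 : Ideal (𝓞 K)) * 𝔠) := by ring
      _ = _ := by rw [← h2, Ideal.span_singleton_mul_span_singleton]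
  have h4 : y * x' ∈ Ideal.span {x} := by
    have h5 : Ideal.span {y * x'} ≤ Ideal.span {x} := by
      rw [← h3]; exact Ideal.mul_le_left
    exact h5 (Ideal.mem_span_singleton_self _)
  obtain ⟨y', hy'⟩ := Ideal.mem_span_singleton'.mp h4
  have h6 : (𝔞 : Ideal (𝓞 K)) * 𝔠 = Ideal.span {y'} := by
    apply mul_left_cancel₀ (a := Ideal.span {x})
    · rw [Ne, Ideal.zero_eq_bot, Ideal.span_singleton_eq_bot]; exact hx
    · rw [h3, Ideal.span_singleton_mul_span_singleton, mul_comm x, hy']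
  refine ⟨x', y', h1, h0, ?_, ?_, ?_⟩
  · rw [← h6]; exact IsCoprime.mul_left (Mq_cop 𝔞) (Mq_cop 𝔠)
  · apply tpos_of_mul hxp
    rw [mul_comm, hy']
    exact tpos_mul hyp h0
  · rw [h2, ← h6]; ring

/-- a character which is trivial on the principal ideals with a totally positive generator comes
from the narrow class group -/
theorem exists_un {𝔮 : Ideal (𝓞 K)} (hbot : 𝔮 ≠ ⊥) (htop : 𝔮 ≠ ⊤) {F : Mq 𝔮 →* ℂˣ}
    (hF : F ∈ D0 𝔮) : ∃ ψ ∈ UnS K, ∀ x : Mq 𝔮, ψ (x : Ideal (𝓞 K)) = ((F x : ℂˣ) : ℂ) := by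
  classical
  have hcan : IsCancelMul (nonZeroDivisors (Ideal (𝓞 K))) := by
    have h1 : ∀ a b c : nonZeroDivisors (Ideal (𝓞 K)), a * b = a * c → b = c := by
      intro a b c h
      have ha : (a : Ideal (𝓞 K)) ≠ 0 := nonZeroDivisors.coe_ne_zero a
      have h2 := congrArg Subtype.val h
      exact Subtype.ext (mul_left_cancel₀ ha h2)
    exact { mul_left_cancel := fun a b c h => h1 a b c h
            mul_right_cancel := fun a b c h => h1 a b c (by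
              rw [mul_comm a b, mul_comm a c]; exact h) }
  obtain ⟨G, hG⟩ := ext_mon (pi3 htop) (F.comp (MonoidHom.fst _ _)) (by
    rintro ⟨𝔞, x⟩ ⟨𝔟, y⟩ hab
    rw [MonoidHom.comp_apply, MonoidHom.comp_apply, MonoidHom.coe_fst]
    have hab' := congrArg Subtype.val hab
    rw [pi3_coe, pi3_coe] at hab'
    obtain ⟨x', y', h1, h2, h3, h4, h5⟩ := same_class_pos hbot htop x.2.1 x.2.2 y.2.2 hab'
    have h6 := hF x' (cop_one h1) h2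
    have h7 := hF y' h3 h4
    have h8 : (⟨Ideal.span {x'}, cop_one h1⟩ : Mq 𝔮) * 𝔞 = ⟨Ideal.span {y'}, h3⟩ * 𝔟 :=
      Subtype.ext h5
    have h9 := congrArg F h8
    rwa [map_mul, map_mul, h6, h7, one_mul, one_mul] at h9)
  have hpi : ∀ p, G (pi3 htop p) = F p.1 := hG
  refine ⟨{
    toFun := fun 𝔞 => if h : 𝔞 = ⊥ then 0 else
      ((G ⟨𝔞, mem_nonZeroDivisors_iff_ne_zero.mpr h⟩ : ℂˣ) : ℂ)
    map_zero' := dif_pos rfl
    map_one' := by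
      rw [dif_neg (by rw [Ideal.one_eq_top]; exact top_ne_bot)]
      have : (⟨1, mem_nonZeroDivisors_iff_ne_zero.mpr
        (by rw [Ideal.one_eq_top]; exact top_ne_bot)⟩ : nonZeroDivisors (Ideal (𝓞 K))) = 1 := rfl
      rw [this, map_one, Units.val_one]
    map_mul' := fun 𝔞 𝔟 => by
      by_cases h1 : 𝔞 = ⊥
      · rw [dif_pos h1, dif_pos (by rw [h1, Ideal.bot_mul]), zero_mul]
      · by_cases h2 : 𝔟 = ⊥
        · rw [dif_pos h2, dif_pos (by rw [h2, Ideal.mul_bot]), mul_zero]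
        · rw [dif_neg h1, dif_neg h2, dif_neg (show ¬ 𝔞 * 𝔟 = ⊥ from mul_ne_zero h1 h2),
            ← Units.val_mul, ← map_mul]
          rfl }, ⟨?_, ?_⟩, ?_⟩
  · intro 𝔞 h
    change (if h : 𝔞 = ⊥ then 0 else
      ((G ⟨𝔞, mem_nonZeroDivisors_iff_ne_zero.mpr h⟩ : ℂˣ) : ℂ)) ≠ 0
    rw [dif_neg h]
    exact Units.ne_zero _
  · intro x hx hx0
    have hs : Ideal.span {x} ≠ ⊥ := by
      rw [Ne, Ideal.span_singleton_eq_bot]; exact hx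
    change (if h : Ideal.span {x} = ⊥ then 0 else
      ((G ⟨Ideal.span {x}, mem_nonZeroDivisors_iff_ne_zero.mpr h⟩ : ℂˣ) : ℂ)) = 1
    rw [dif_neg hs]
    have h1 := hpi (1, ⟨x, hx, hx0⟩)
    have h2 : pi3 htop (1, ⟨x, hx, hx0⟩) =
        ⟨Ideal.span {x}, mem_nonZeroDivisors_iff_ne_zero.mpr hs⟩ := by
      apply Subtype.ext
      rw [pi3_coe, Submonoid.coe_one, one_mul]
    rw [h2, map_one] at h1
    rw [h1, Units.val_one]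
  · intro x
    have hx0 := Mq_ne_bot htop x
    change (if h : (x : Ideal (𝓞 K)) = ⊥ then 0 else
      ((G ⟨(x : Ideal (𝓞 K)), mem_nonZeroDivisors_iff_ne_zero.mpr h⟩ : ℂˣ) : ℂ)) = _
    rw [dif_neg hx0]
    have h1 := hpi (x, 1)
    have h2 : pi3 htop (x, 1) =
        ⟨(x : Ideal (𝓞 K)), mem_nonZeroDivisors_iff_ne_zero.mpr hx0⟩ := by
      apply Subtype.ext
      rw [pi3_coe, Submonoid.coe_one, Ideal.span_singleton_one, ← Ideal.one_eq_top, mul_one]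
    rw [h2] at h1
    rw [h1]

/-- restrictions of unramified characters -/
theorem res_mod {𝔫 : Ideal (𝓞 K)} (hnb : 𝔫 ≠ ⊥) (hn : 𝔫 ≠ ⊤) {ψ : Ideal (𝓞 K) →*₀ ℂ}
    (hψ : ψ ∈ UnS K) : ∃ e : InfinitePlace K → ℕ, G.IsModChar 𝔫 e (res 𝔫 hn ψ) := by
  have hSig := Pool.Agent.Y772.G.t_sig
  have hray : ∀ x : 𝓞 K, x ≠ 0 → x - 1 ∈ 𝔫 → TPos K x → res 𝔫 hn ψ (Ideal.span {x}) = 1 := by
    intro x hx0 hx hp
    rw [res_cop hn ψ (cop_one hx)]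
    exact hψ.2 x hx0 hp
  obtain ⟨e, he, hcx, hsig⟩ := hSig K 𝔫 _ hnb hray
  refine ⟨e, hnb, hn, he, hcx, fun 𝔞 => ?_, hsig⟩
  constructor
  · intro h
    by_contra h3
    exact h (res_not hn ψ h3)
  · intro h
    rw [res_cop hn ψ h]
    refine hψ.1 𝔞 ?_
    rintro rfl
    rw [Ideal.isCoprime_iff_sup_eq, bot_sup_eq] at h
    exact hn h

variable (K) in
theorem exists_baseK :
    ∃ (Hc : (Ideal (𝓞 K) →*₀ ℂ) → ℂ → ℂ) (B : ℝ), 0 < B ∧ ∀ ψ ∈ UnS K,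
    Differentiable ℂ (Hc ψ) ∧
    (∀ s, 1 < s.re → Hc ψ s = (s - 1) * LI (res (m0 K) m0_top ψ) s) ∧
    ∀ T, 5 ≤ T → (zset (Hc ψ) T (2 * T)).Finite ∧ (NN (Hc ψ) T (2 * T) : ℝ) ≤ B * T ^ 2 := by
  classical
  have hfin := (UnS_finite (K := K)).1
  have hft : Fintype (UnS K) := Fintype.ofFinite _
  obtain ⟨A, hA, hdir⟩ := Pool.Agent.Y772.DK.t_dirK K
  have key : ∀ ψ : Ideal (𝓞 K) →*₀ ℂ, ∃ (H : ℂ → ℂ) (B : ℝ), 0 < B ∧
      (ψ ∈ UnS K → Differentiable ℂ H ∧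
      (∀ s, 1 < s.re → H s = (s - 1) * LI (res (m0 K) m0_top ψ) s) ∧
      ∀ T, 5 ≤ T → (zset H T (2 * T)).Finite ∧ (NN H T (2 * T) : ℝ) ≤ B * T ^ 2) := by
    intro ψ
    by_cases hψ : ψ ∈ UnS K
    swap
    · exact ⟨fun _ => 0, 1, one_pos, fun h => absurd h hψ⟩
    obtain ⟨e, he⟩ := res_mod m0_bot m0_top hψ
    obtain ⟨H, hH, hHL, M, hM, hst⟩ := G.LI_mero he
    obtain ⟨-, -, -, -, d5, d6, -⟩ := hdir _ (norm_res_le m0_top (UnS_norm hψ))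
    obtain ⟨B, hB, hc⟩ := zcount_crude H hH A (M) (Fintype.card (K →+* ℂ) * Real.pi) hA hM
      (by positivity) (fun s hs => by
        rw [hHL s (by linarith), norm_mul]
        exact mul_le_mul_of_nonneg_left (d5 s hs) (norm_nonneg _)) (fun s hs => by
        rw [hHL s (by linarith), norm_mul]
        exact mul_le_mul_of_nonneg_left (d6 s hs) (norm_nonneg _)) hst
    exact ⟨H, B, hB, fun _ => ⟨hH, hHL, hc⟩⟩
  choose H B hB hH using key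
  refine ⟨H, 1 + ∑ ψ : UnS K, B ψ, ?_, fun ψ hψ => ⟨(hH ψ hψ).1, (hH ψ hψ).2.1, fun T hT =>
    ⟨((hH ψ hψ).2.2 T hT).1, ((hH ψ hψ).2.2 T hT).2.trans ?_⟩⟩⟩
  · have : 0 ≤ ∑ ψ : UnS K, B ψ := Finset.sum_nonneg fun c _ => (hB c).le
    linarith
  · refine mul_le_mul_of_nonneg_right ?_ (sq_nonneg _)
    have := Finset.single_le_sum (f := fun ψ : UnS K => B ψ) (fun c _ => (hB c).le)
      (Finset.mem_univ ⟨ψ, hψ⟩)
    have h2 : B ψ ≤ ∑ ψ : UnS K, B ψ := this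
    linarith

variable {𝔮 𝔫 : Ideal (𝓞 K)} {Γ : Type} [CommGroup Γ]

/-- the characters of the quotient are characters modulo `𝔫 𝔮` -/
theorem etc_modK (hbot : 𝔮 ≠ ⊥) (htop : 𝔮 ≠ ⊤) (hnb : 𝔫 ≠ ⊥) (hn : 𝔫 ≠ ⊤) (hr : Rad 𝔮 𝔫)
    (art : Mq 𝔮 →* Γ) (h1 : ∀ x : T1 htop, art (pi1 htop x) = 1) (χ : Γ →* ℂˣ) :
    ∃ e : InfinitePlace K → ℕ, G.IsModChar (𝔫 * 𝔮) e (etc htop hn art χ) := by
  have hSig := Pool.Agent.Y772.G.t_sig
  have hne : 𝔫 * 𝔮 ≠ ⊥ := mul_ne_zero hnb hbot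
  have hray : ∀ x : 𝓞 K, x ≠ 0 → x - 1 ∈ 𝔫 * 𝔮 → TPos K x →
      etc htop hn art χ (Ideal.span {x}) = 1 := by
    intro x hx0 hx hp
    have h2 : x - 1 ∈ 𝔫 := mem_l hx
    have h3 : x - 1 ∈ 𝔮 := mem_r hx
    rw [etc_cop hbot htop hn hr art χ (cop_one h2)]
    have h4 : art ⟨Ideal.span {x}, cop_of_rad hbot hr (cop_one h2)⟩ = 1 := h1 ⟨x, h3, hp⟩
    rw [h4, map_one, Units.val_one]
  obtain ⟨e, he, hcx, hsig⟩ := hSig K (𝔫 * 𝔮) _ hne hray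
  refine ⟨e, hne, ?_, he, hcx, fun 𝔞 => ?_, hsig⟩
  · intro h
    have h2 : 𝔫 * 𝔮 ≤ 𝔫 := Ideal.mul_le_left
    rw [h] at h2
    exact hn (top_le_iff.mp h2)
  · rw [IsCoprime.mul_right_iff]
    constructor
    · intro h
      have h2 : IsCoprime 𝔞 𝔫 := by
        by_contra h3
        exact h (etc_not htop hn art χ h3)
      exact ⟨h2, cop_of_rad hbot hr h2⟩
    · rintro ⟨h2, -⟩
      rw [etc_cop hbot htop hn hr art χ h2]
      exact Units.ne_zero _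

/-- existence of the functions -/
theorem exists_HchiK (hbot : 𝔮 ≠ ⊥) (htop : 𝔮 ≠ ⊤) (hnb : 𝔫 ≠ ⊥)
    (hn : 𝔫 ≠ ⊤) (hr : Rad 𝔮 𝔫) (art : Mq 𝔮 →* Γ)
    (h1 : ∀ x : T1 htop, art (pi1 htop x) = 1) :
    ∃ H : (Γ →* ℂˣ) → ℂ → ℂ, ∀ χ, Differentiable ℂ (H χ) ∧
      ∀ s : ℂ, 1 < s.re → H χ s = (s - 1) * LI (etc htop hn art χ) s := by
  have key : ∀ χ : Γ →* ℂˣ, ∃ H : ℂ → ℂ, Differentiable ℂ H ∧
      ∀ s : ℂ, 1 < s.re → H s = (s - 1) * LI (etc htop hn art χ) s := by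
    intro χ
    obtain ⟨e, he⟩ := etc_modK hbot htop hnb hn hr art h1 χ
    obtain ⟨H, hH, hHL, -⟩ := G.LI_mero he
    exact ⟨H, hH, hHL⟩
  choose H hH using key
  exact ⟨H, hH⟩

/-- the unramified characters -/
theorem H_unrK (hbot : 𝔮 ≠ ⊥) (htop : 𝔮 ≠ ⊤) (hnb : 𝔫 ≠ ⊥) (hn : 𝔫 ≠ ⊤) (hr : Rad 𝔮 𝔫)
    (art : Mq 𝔮 →* Γ) (χ : Γ →* ℂˣ) {ψ : Ideal (𝓞 K) →*₀ ℂ} (hψU : ψ ∈ UnS K)
    (hψ : ∀ x : Mq 𝔮, ψ (x : Ideal (𝓞 K)) = (χ (art x) : ℂˣ)) {H : ℂ → ℂ}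
    (hH : Differentiable ℂ H) (hHL : ∀ s, 1 < s.re → H s = (s - 1) * LI (etc htop hn art χ) s)
    {F : ℂ → ℂ} (hF : Differentiable ℂ F)
    (hFL : ∀ s, 1 < s.re → F s = (s - 1) * LI (res (m0 K) m0_top ψ) s)
    {T1 T2 : ℝ} :
    zset H T1 T2 = zset F T1 T2 ∧ NN H T1 T2 = NN F T1 T2 ∧
      Ns H T1 T2 = Ns F T1 T2 ∧ Nd H T1 T2 = Nd F T1 T2 := by
  have hψ1 := UnS_norm hψU
  have hE := Ef_diff hnb ψ
  have hE0 := Ef_diff (m0_bot (K := K)) ψ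
  have heq : (fun s => H s * Ef (m0 K) ψ s) = fun s => F s * Ef 𝔫 ψ s := by
    refine eq_of_LI (hH.mul hE0) (hF.mul hE) fun s hs => ?_
    rw [hHL s hs, hFL s hs, etc_res hbot htop hn hr art χ hψ, LI_res hnb hn hψ1 hs,
      LI_res m0_bot m0_top hψ1 hs]
    ring
  refine count_congr (fun s _ => hH.analyticAt s) (fun s _ => hF.analyticAt s) fun s hs => ?_
  rw [← order_mul_ne (hH.analyticAt s) (hE0.analyticAt s) (Ef_ne m0_bot hψ1 hs.1) EventuallyEq.rfl,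
    ← order_mul_ne (hF.analyticAt s) (hE.analyticAt s) (Ef_ne hnb hψ1 hs.1) EventuallyEq.rfl, heq]

/-- a member of the family is not trivial on the principal ideals with a totally positive
generator -/
theorem fam_ramK (hbot : 𝔮 ≠ ⊥) {ψ : Ideal (𝓞 K) →*₀ ℂ} (hψ : ψ ∈ Fam 𝔮) :
    ∃ (x : 𝓞 K) (_ : IsCoprime (Ideal.span {x}) 𝔮), TPos K x ∧ ψ (Ideal.span {x}) ≠ 1 := by
  obtain ⟨𝔣, h1, h2, h3⟩ := hψ
  obtain ⟨x, -, hx0, hx, hx2⟩ := h3.prim ⊤ (by rw [← Ideal.one_eq_top]; exact one_dvd _)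
    (fun h => h2 h.symm)
  obtain ⟨z, hz1, hz2⟩ := Pool.Agent.Y773.IQ.exists_cop_lift (Ideal.dvd_iff_le.mp h1) hbot hx
  obtain ⟨z', k1, -, k2⟩ := lift_tpos hbot z
  have hz3 : z' - x ∈ 𝔣 := by
    have : z' - x = (z' - z) + (z - x) := by ring
    rw [this]
    exact add_mem (Ideal.dvd_iff_le.mp h1 k2) hz2
  exact ⟨z', cop_congr k2 hz1, k1, by rw [prim_congr' h3 h2 hz3 k1 hx0 hx]; exact hx2⟩

end

end Pool.Agent.Helper503_HW
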